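import Pool.Agent.Helper50.UV.Junta
import Pool.Agent.Helper5.UV.Junta

/-!
The capacity of an arbitrary function of `d` additive threshold gates.
-/

set_option autoImplicit false
set_option linter.unusedSectionVars false

open Finset
open scoped BigOperators

namespace Pool.Agent.Helper50.UV

open Pool.Agent.Helper8.VT Pool.Agent.Helper8.UV
open Pool.Agent.Helper5.UV (infl infl_comm junta_ev)

variable {m Q : ℕ} [NeZero Q]

open Classical in
/-- The capacity of a function of `d` additive threshold gates with fan-ins `k s`. -/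
theorem gates_cap (d : ℕ) (f : Fin d → Key m → ZMod Q → ℝ) (θ : Fin d → ℝ)
    (F : (Fin d → Bool) → ℝ) (G : Cfg m Q → Cfg m Q → Cfg m Q → ℝ)
    (hG : ∀ X Y Z, G X Y Z = F (fun s => decide (θ s ≤ ∑ v, f s v (wk X Y Z v))))
    (k : Fin d → ℕ)
    (hk : ∀ s, (univ.filter fun e => ∃ v v', f s e v ≠ f s e v').card ≤ k s) :
    cap G ≤ 80 * m * (√d * ∑ s, (k s : ℝ)) := by
  have h := junta_cap G d f k hk (16 * √6) (by positivity)
    (fun i j k0 k' hne x a a' => by
      have := (junta_ev f θ F G hG i j k0 k' hne x a a').1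
      simp only [infl_comm _ _ (x true)] at this
      exact this)
    (fun i j k0 k' hne x a a' => by
      have := (junta_ev f θ F G hG i j k0 k' hne x a a').2.1
      simp only [infl_comm _ _ (a true)] at this
      exact this)
    (fun i j k0 k' hne x a a' => by
      have := (junta_ev f θ F G hG i j k0 k' hne x a a').2.2
      simp only [infl_comm _ _ (vb x a true)] at this
      exact this)
  refine h.trans ?_
  have h6 : √6 ≤ 5 / 2 := by
    rw [Real.sqrt_le_left (by norm_num)]
    norm_num
  have hs : 0 ≤ √d * ∑ s, (k s : ℝ) :=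
    mul_nonneg (Real.sqrt_nonneg _) (Finset.sum_nonneg fun s _ => Nat.cast_nonneg _)
  have : 2 * (16 * √6) * (m : ℝ) ≤ 80 * m := by
    have hm : (0 : ℝ) ≤ m := Nat.cast_nonneg m
    nlinarith
  exact mul_le_mul_of_nonneg_right this hs

end Pool.Agent.Helper50.UV
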