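import Pool.Agent.Helper8.VT.TreeL
import Pool.Agent.Helper8.UV.Box

/-!
The capacity of a decision tree: mixed third differences of a tree on a random box over two
triangles sharing an edge.
-/

set_option autoImplicit false
set_option linter.unusedSectionVars false

open Finset
open scoped BigOperators

namespace Pool.Agent.Helper50.UV

open Pool.Agent.Helper8.VT Pool.Agent.Helper8.UV
open Pool.Agent.Helper8.VS (resample' tri_sq Last exists_last ind ind_nonneg ind_le_one ind_true
  ind_false Last.mem)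

/-- Alternating sum over the vertices of a box. -/
noncomputable def alt (f : Bool → Bool → Bool → ℝ) : ℝ :=
  ∑ a, ∑ b, ∑ c, sg a * sg b * sg c * f a b c

theorem alt_eq (f : Bool → Bool → Bool → ℝ) : alt f =
    f false false false - f true false false - f false true false - f false false true +
      f true true false + f true false true + f false true true - f true true true := by
  unfold alt
  simp only [Fintype.sum_bool, sg]
  norm_num
  ring

section
variable {n m D : ℕ}

/-- The mixed third difference of a tree vanishes unless all three keys are read at some vertex. -/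
theorem third (κ : Fin n → Fin n → Option (Key m)) (t : Tree n D) (e1 e2 e3 : Option (Key m))
    (W : Bool → Bool → Bool → Wts n)
    (h1 : ∀ a a' b c i j, κ i j ≠ e1 → W a' b c i j = W a b c i j)
    (h2 : ∀ a b b' c i j, κ i j ≠ e2 → W a b' c i j = W a b c i j)
    (h3 : ∀ a b c c' i j, κ i j ≠ e3 → W a b c' i j = W a b c i j)
    (hno : ∀ a b c, ¬ (e1 ∈ t.path κ (W a b c) ∧ e2 ∈ t.path κ (W a b c) ∧
      e3 ∈ t.path κ (W a b c))) :
    alt (fun a b c => t.eval (W a b c)) = 0 := by
  classical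
  set G3 : Bool → Bool → Bool → ℝ := fun a b c =>
    t.eval (W a b c) * ind (e3 ∉ t.path κ (W a b c) ∧ True) with hG3
  set G2 : Bool → Bool → Bool → ℝ := fun a b c =>
    t.eval (W a b c) * ind (e2 ∉ t.path κ (W a b c) ∧ e3 ∈ t.path κ (W a b c)) with hG2
  set G1 : Bool → Bool → Bool → ℝ := fun a b c =>
    t.eval (W a b c) * ind (e1 ∉ t.path κ (W a b c) ∧
      (e2 ∈ t.path κ (W a b c) ∧ e3 ∈ t.path κ (W a b c))) with hG1
  have hsplit : ∀ a b c, t.eval (W a b c) = G3 a b c + G2 a b c + G1 a b c := by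
    intro a b c
    have := hno a b c
    simp only [hG3, hG2, hG1, ind]
    by_cases c3 : e3 ∈ t.path κ (W a b c) <;> by_cases c2 : e2 ∈ t.path κ (W a b c) <;>
      by_cases c1 : e1 ∈ t.path κ (W a b c) <;> simp_all
  have d3 : ∀ a b c c', G3 a b c' = G3 a b c := fun a b c c' =>
    t.inv κ _ _ e3 (fun i j h => h3 a b c c' i j h) (fun _ => True)
  have d2 : ∀ a b b' c, G2 a b' c = G2 a b c := fun a b b' c =>
    t.inv κ _ _ e2 (fun i j h => h2 a b b' c i j h) (fun l => e3 ∈ l)
  have d1 : ∀ a a' b c, G1 a' b c = G1 a b c := fun a a' b c =>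
    t.inv κ _ _ e1 (fun i j h => h1 a a' b c i j h) (fun l => e2 ∈ l ∧ e3 ∈ l)
  rw [alt_eq]
  simp only [hsplit]
  have a1 := d3 false false false true
  have a2 := d3 true false false true
  have a3 := d3 false true false true
  have a4 := d3 true true false true
  have b1 := d2 false false true false
  have b2 := d2 true false true false
  have b3 := d2 false false true true
  have b4 := d2 true false true true
  have c1 := d1 false true false false
  have c2 := d1 false true true false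
  have c3 := d1 false true false true
  have c4 := d1 false true true true
  linarith

end

section
variable {Q : ℕ} [NeZero Q]

theorem cst {α : Type} [Fintype α] [Nonempty α] (r : ℝ) : (𝔼 _a : α, r) = r :=
  Finset.expect_const Finset.univ_nonempty r

theorem avg_c (M : ZMod Q → ZMod Q → ℝ) (x : ZMod Q) (s t : Bool) :
    (𝔼 c0, 𝔼 c1, M (cond s c1 c0) (-x - cond t c1 c0)) =
      if s = t then 𝔼 v, M v (-x - v) else 𝔼 v, 𝔼 w, M v w := by
  have h := fun v => expect_neg_sub x (fun w => M v w)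
  cases s <;> cases t
  · simp only [cond_false, if_true, cst]
  · simp only [cond_false, cond_true, reduceCtorEq, if_false, h]
  · rw [Finset.expect_comm]
    simp only [cond_false, cond_true, reduceCtorEq, if_false, h]
  · simp only [cond_true, if_true, cst]

theorem avg_a (M : ZMod Q → ZMod Q → ℝ) (x : ZMod Q) (q r : Bool) :
    (𝔼 a0, 𝔼 a1, M (cond q a1 a0) (-x - cond r a0 a1)) =
      if q = r then 𝔼 v, 𝔼 w, M v w else 𝔼 v, M v (-x - v) := by
  have h := avg_c M x q (!r)
  have e : ∀ a0 a1 : ZMod Q, cond r a0 a1 = cond (!r) a1 a0 := by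
    intro a0 a1; cases r <;> rfl
  simp only [e, h]
  cases q <;> cases r <;> simp

/-- Averages over the null law and the laws planted on one of the two triangles. -/
noncomputable def avN (H : ZMod Q → ZMod Q → ZMod Q → ZMod Q → ZMod Q → ℝ) : ℝ :=
  𝔼 u, 𝔼 v, 𝔼 w, 𝔼 v', 𝔼 w', H u v w v' w'

noncomputable def avP (H : ZMod Q → ZMod Q → ZMod Q → ZMod Q → ZMod Q → ℝ) : ℝ :=
  𝔼 u, 𝔼 v, 𝔼 v', 𝔼 w', H u v (-u - v) v' w'

noncomputable def avP' (H : ZMod Q → ZMod Q → ZMod Q → ZMod Q → ZMod Q → ℝ) : ℝ :=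
  𝔼 u, 𝔼 v, 𝔼 w, 𝔼 v', H u v w v' (-u - v')

theorem box_law (H : ZMod Q → ZMod Q → ZMod Q → ZMod Q → ZMod Q → ℝ) (p q r s t : Bool) :
    (𝔼 x0, 𝔼 x1, 𝔼 a0, 𝔼 a1, 𝔼 c0, 𝔼 c1, H (cond p x1 x0) (cond q a1 a0) (-x1 - cond r a0 a1)
      (cond s c1 c0) (-x0 - cond t c1 c0)) = avN H ∨
    (𝔼 x0, 𝔼 x1, 𝔼 a0, 𝔼 a1, 𝔼 c0, 𝔼 c1, H (cond p x1 x0) (cond q a1 a0) (-x1 - cond r a0 a1)
      (cond s c1 c0) (-x0 - cond t c1 c0)) = avP H ∨
    (𝔼 x0, 𝔼 x1, 𝔼 a0, 𝔼 a1, 𝔼 c0, 𝔼 c1, H (cond p x1 x0) (cond q a1 a0) (-x1 - cond r a0 a1)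
      (cond s c1 c0) (-x0 - cond t c1 c0)) = avP' H := by
  set L := (𝔼 x0, 𝔼 x1, 𝔼 a0, 𝔼 a1, 𝔼 c0, 𝔼 c1, H (cond p x1 x0) (cond q a1 a0)
      (-x1 - cond r a0 a1) (cond s c1 c0) (-x0 - cond t c1 c0)) with hL
  have h1 : L = 𝔼 x0, 𝔼 x1, 𝔼 a0, 𝔼 a1, (if s = t then
      𝔼 v', H (cond p x1 x0) (cond q a1 a0) (-x1 - cond r a0 a1) v' (-x0 - v') else
      𝔼 v', 𝔼 w', H (cond p x1 x0) (cond q a1 a0) (-x1 - cond r a0 a1) v' w') := by
    rw [hL]
    refine Finset.expect_congr rfl fun x0 _ => Finset.expect_congr rfl fun x1 _ =>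
      Finset.expect_congr rfl fun a0 _ => Finset.expect_congr rfl fun a1 _ => ?_
    exact avg_c (fun v w => H (cond p x1 x0) (cond q a1 a0) (-x1 - cond r a0 a1) v w) x0 s t
  have h2 : L = 𝔼 x0, 𝔼 x1, (if q = r then
      𝔼 v, 𝔼 w, (if s = t then 𝔼 v', H (cond p x1 x0) v w v' (-x0 - v') else
        𝔼 v', 𝔼 w', H (cond p x1 x0) v w v' w') else
      𝔼 v, (if s = t then 𝔼 v', H (cond p x1 x0) v (-x1 - v) v' (-x0 - v') else
        𝔼 v', 𝔼 w', H (cond p x1 x0) v (-x1 - v) v' w')) := by
    rw [h1]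
    refine Finset.expect_congr rfl fun x0 _ => Finset.expect_congr rfl fun x1 _ => ?_
    exact avg_a (fun v w => if s = t then 𝔼 v', H (cond p x1 x0) v w v' (-x0 - v') else
      𝔼 v', 𝔼 w', H (cond p x1 x0) v w v' w') x1 q r
  have hx := fun (x : ZMod Q) (f : ZMod Q → ℝ) => expect_neg_sub x f
  by_cases hst : s = t <;> by_cases hqr : q = r
  · simp only [hst, hqr, if_true] at h2
    cases p
    · right; right
      rw [h2]
      unfold avP'
      refine Finset.expect_congr rfl fun x0 _ => ?_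
      simp only [cond_false, cst]
    · left
      rw [h2, Finset.expect_comm]
      unfold avN
      refine Finset.expect_congr rfl fun x1 _ => ?_
      simp only [cond_true]
      rw [Finset.expect_comm]
      refine Finset.expect_congr rfl fun v _ => ?_
      rw [Finset.expect_comm]
      refine Finset.expect_congr rfl fun w _ => ?_
      rw [Finset.expect_comm]
      refine Finset.expect_congr rfl fun v' _ => ?_
      have e : ∀ x0 : ZMod Q, -x0 - v' = -v' - x0 := fun x0 => by ring
      simp only [e]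
      exact hx v' (fun w' => H x1 v w v' w')
  · simp only [hst, hqr, if_true, if_false] at h2
    cases p
    · right; right
      rw [h2]
      unfold avP'
      refine Finset.expect_congr rfl fun x0 _ => ?_
      simp only [cond_false]
      rw [Finset.expect_comm]
      refine Finset.expect_congr rfl fun v _ => ?_
      have e : ∀ x1 : ZMod Q, -x1 - v = -v - x1 := fun x0 => by ring
      simp only [e]
      exact hx v (fun w => 𝔼 v', H x0 v w v' (-x0 - v'))
    · right; left
      rw [h2, Finset.expect_comm]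
      unfold avP
      refine Finset.expect_congr rfl fun x1 _ => ?_
      simp only [cond_true]
      rw [Finset.expect_comm]
      refine Finset.expect_congr rfl fun v _ => ?_
      rw [Finset.expect_comm]
      refine Finset.expect_congr rfl fun v' _ => ?_
      have e : ∀ x0 : ZMod Q, -x0 - v' = -v' - x0 := fun x0 => by ring
      simp only [e]
      exact hx v' (fun w' => H x1 v (-x1 - v) v' w')
  · simp only [hst, hqr, if_true, if_false] at h2
    left
    rw [h2]
    unfold avN
    cases p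
    · simp only [cond_false, cst]
    · simp only [cond_true, cst]
  · simp only [hst, hqr, if_false] at h2
    cases p
    · left
      rw [h2]
      unfold avN
      refine Finset.expect_congr rfl fun x0 _ => ?_
      simp only [cond_false]
      rw [Finset.expect_comm]
      refine Finset.expect_congr rfl fun v _ => ?_
      have e : ∀ x1 : ZMod Q, -x1 - v = -v - x1 := fun x0 => by ring
      simp only [e]
      exact hx v (fun w => 𝔼 v', 𝔼 w', H x0 v w v' w')
    · right; left
      rw [h2]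
      unfold avP
      simp only [cond_true, cst]

theorem expBool (f : ZMod Q → ZMod Q → ℝ) :
    (𝔼 x : Bool → ZMod Q, f (x false) (x true)) = 𝔼 x0, 𝔼 x1, f x0 x1 := by
  rw [Fintype.expect_equiv (Equiv.boolArrowEquivProd (ZMod Q))
    (fun x : Bool → ZMod Q => f (x false) (x true)) (fun p => f p.1 p.2) (fun x => rfl)]
  rw [← Finset.univ_product_univ, Finset.expect_product]

end

section
variable {m Q : ℕ} [NeZero Q]

theorem base_b (G : Cfg m Q → Cfg m Q → Cfg m Q → ℝ) (e : Fin m × Fin m) :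
    𝔼 c, 𝔼 X, 𝔼 Y, 𝔼 Z, G X (Function.update Y e c) Z = 𝔼 X, 𝔼 Y, 𝔼 Z, G X Y Z := by
  rw [Finset.expect_comm]
  refine Finset.expect_congr rfl fun X _ => ?_
  exact resample' e (fun Y => 𝔼 Z, G X Y Z)

theorem base_a (G : Cfg m Q → Cfg m Q → Cfg m Q → ℝ) (e : Fin m × Fin m) :
    𝔼 c, 𝔼 X, 𝔼 Y, 𝔼 Z, G (Function.update X e c) Y Z = 𝔼 X, 𝔼 Y, 𝔼 Z, G X Y Z :=
  resample' e (fun X => 𝔼 Y, 𝔼 Z, G X Y Z)

/-- The average of `G` over the base with five planted values. -/
noncomputable def HH (G : Cfg m Q → Cfg m Q → Cfg m Q → ℝ) (i j k k' : Fin m)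
    (u v w v' w' : ZMod Q) : ℝ :=
  𝔼 X, 𝔼 Y, 𝔼 Z, F5 G i j k k' X Y Z u v w v' w'

theorem HH_w' (G : Cfg m Q → Cfg m Q → Cfg m Q → ℝ) (i j : Fin m) {k k' : Fin m} (hk : k ≠ k')
    (u v w v' : ZMod Q) : 𝔼 w', HH G i j k k' u v w v' w' = 𝔼 X, 𝔼 Y, 𝔼 Z,
      G (Function.update X (i, j) u) (Function.update (Function.update Y (j, k) v) (j, k') v')
        (Function.update Z (k, i) w) := by
  have hne : (k, i) ≠ (k', i) := fun h => hk (Prod.ext_iff.1 h).1
  have h := base_c (fun X Y Z => G (Function.update X (i, j) u)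
    (Function.update (Function.update Y (j, k) v) (j, k') v')
        (Function.update Z (k, i) w)) (k', i)
  unfold HH F5
  simp only [Function.update_comm hne] at h ⊢
  exact h

theorem avN_HH (G : Cfg m Q → Cfg m Q → Cfg m Q → ℝ) (i j : Fin m) {k k' : Fin m}
    (hk : k ≠ k') : avN (HH G i j k k') = bas G := by
  have hne : (j, k) ≠ (j, k') := fun h => hk (Prod.ext_iff.1 h).2
  unfold avN
  simp only [HH_w' G i j hk]
  have h2 : ∀ u v w : ZMod Q, (𝔼 v', 𝔼 X, 𝔼 Y, 𝔼 Z,
      G (Function.update X (i, j) u) (Function.update (Function.update Y (j, k) v) (j, k') v')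
        (Function.update Z (k, i) w)) = 𝔼 X, 𝔼 Y, 𝔼 Z,
      G (Function.update X (i, j) u) (Function.update Y (j, k) v)
        (Function.update Z (k, i) w) := by
    intro u v w
    have h := base_b (fun X Y Z => G (Function.update X (i, j) u)
      (Function.update Y (j, k) v) (Function.update Z (k, i) w)) (j, k')
    simp only [Function.update_comm hne] at h ⊢
    exact h
  simp only [h2]
  have h3 : ∀ u v : ZMod Q, (𝔼 w, 𝔼 X, 𝔼 Y, 𝔼 Z,
      G (Function.update X (i, j) u) (Function.update Y (j, k) v)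
        (Function.update Z (k, i) w)) = 𝔼 X, 𝔼 Y, 𝔼 Z,
      G (Function.update X (i, j) u) (Function.update Y (j, k) v) Z := fun u v =>
    base_c (fun X Y Z => G (Function.update X (i, j) u) (Function.update Y (j, k) v) Z) (k, i)
  simp only [h3]
  have h4 : ∀ u : ZMod Q, (𝔼 v, 𝔼 X, 𝔼 Y, 𝔼 Z,
      G (Function.update X (i, j) u) (Function.update Y (j, k) v) Z) = 𝔼 X, 𝔼 Y, 𝔼 Z,
      G (Function.update X (i, j) u) Y Z := fun u =>
    base_b (fun X Y Z => G (Function.update X (i, j) u) Y Z) (j, k)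
  simp only [h4]
  exact base_a G (i, j)

theorem avP_HH (G : Cfg m Q → Cfg m Q → Cfg m Q → ℝ) (i j : Fin m) {k k' : Fin m}
    (hk : k ≠ k') : avP (HH G i j k k') = pla G i j k := by
  have hne : (j, k) ≠ (j, k') := fun h => hk (Prod.ext_iff.1 h).2
  unfold avP pla gT
  simp only [HH_w' G i j hk]
  refine Finset.expect_congr rfl fun u _ => Finset.expect_congr rfl fun v _ => ?_
  have h := base_b (fun X Y Z => G (Function.update X (i, j) u)
      (Function.update Y (j, k) v) (Function.update Z (k, i) (-u - v))) (j, k')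
  simp only [Function.update_comm hne] at h ⊢
  exact h

theorem avP'_HH (G : Cfg m Q → Cfg m Q → Cfg m Q → ℝ) (i j k k' : Fin m) :
    avP' (HH G i j k k') = pla G i j k' := by
  unfold avP' pla gT HH F5
  refine Finset.expect_congr rfl fun u _ => ?_
  have h1 : ∀ v : ZMod Q, (𝔼 w, 𝔼 v', 𝔼 X, 𝔼 Y, 𝔼 Z, G (Function.update X (i, j) u)
      (Function.update (Function.update Y (j, k) v) (j, k') v')
      (Function.update (Function.update Z (k, i) w) (k', i) (-u - v'))) =
      𝔼 v', 𝔼 X, 𝔼 Y, 𝔼 Z, G (Function.update X (i, j) u)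
      (Function.update (Function.update Y (j, k) v) (j, k') v')
      (Function.update Z (k', i) (-u - v')) := by
    intro v
    rw [Finset.expect_comm]
    refine Finset.expect_congr rfl fun v' _ => ?_
    exact base_c (fun X Y Z => G (Function.update X (i, j) u)
      (Function.update (Function.update Y (j, k) v) (j, k') v')
      (Function.update Z (k', i) (-u - v'))) (k, i)
  simp only [h1]
  rw [Finset.expect_comm]
  refine Finset.expect_congr rfl fun v' _ => ?_
  exact base_b (fun X Y Z => G (Function.update X (i, j) u)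
      (Function.update Y (j, k') v') (Function.update Z (k', i) (-u - v'))) (j, k)

/-- The average over the structure of `F5 G` at one vertex of the box. -/
theorem vertex (G : Cfg m Q → Cfg m Q → Cfg m Q → ℝ) (i j : Fin m) {k k' : Fin m}
    (hk : k ≠ k') (p q r s t : Bool) (A : ℝ) (hN : bas G ≤ A) (hP : pla G i j k ≤ A)
    (hP' : pla G i j k' ≤ A) :
    (𝔼 X, 𝔼 Y, 𝔼 Z, 𝔼 x : Bool → ZMod Q, 𝔼 a : Bool → ZMod Q, 𝔼 a' : Bool → ZMod Q,
      F5 G i j k k' X Y Z (x p) (a q) (vb x a r) (a' s) (vb' x a' t)) ≤ A := by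
  have sw : ∀ {T : Type} [Fintype T] (f : Cfg m Q → Cfg m Q → Cfg m Q → T → ℝ),
      (𝔼 X, 𝔼 Y, 𝔼 Z, 𝔼 t, f X Y Z t) = 𝔼 t, 𝔼 X, 𝔼 Y, 𝔼 Z, f X Y Z t := by
    intro T _ f
    have e1 : ∀ X Y, (𝔼 Z, 𝔼 t, f X Y Z t) = 𝔼 t, 𝔼 Z, f X Y Z t := fun X Y =>
      Finset.expect_comm _ _ _
    simp only [e1]
    have e2 : ∀ X, (𝔼 Y, 𝔼 t, 𝔼 Z, f X Y Z t) = 𝔼 t, 𝔼 Y, 𝔼 Z, f X Y Z t := fun X =>
      Finset.expect_comm _ _ _
    simp only [e2]
    exact Finset.expect_comm _ _ _
  rw [sw]
  simp only [sw]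
  change (𝔼 x : Bool → ZMod Q, 𝔼 a : Bool → ZMod Q, 𝔼 a' : Bool → ZMod Q,
    HH G i j k k' (x p) (a q) (vb x a r) (a' s) (vb' x a' t)) ≤ A
  have e1 : ∀ (x : Bool → ZMod Q) (p : Bool), x p = cond p (x true) (x false) := by
    intro x p; cases p <;> rfl
  have e2 : ∀ (x a : Bool → ZMod Q), vb x a r = - x true - cond r (a false) (a true) := by
    intro x a; cases r <;> rfl
  have e3 : ∀ (x a' : Bool → ZMod Q), vb' x a' t = - x false - cond t (a' true) (a' false) := by
    intro x a'; cases t <;> rfl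
  simp only [e2, e3]
  have e4 : (𝔼 x : Bool → ZMod Q, 𝔼 a : Bool → ZMod Q, 𝔼 a' : Bool → ZMod Q,
      HH G i j k k' (x p) (a q) (- x true - cond r (a false) (a true)) (a' s)
        (- x false - cond t (a' true) (a' false))) =
      𝔼 x0, 𝔼 x1, 𝔼 a0, 𝔼 a1, 𝔼 c0, 𝔼 c1, HH G i j k k' (cond p x1 x0) (cond q a1 a0)
        (-x1 - cond r a0 a1) (cond s c1 c0) (-x0 - cond t c1 c0) := by
    rw [← expBool]
    refine Finset.expect_congr rfl fun x _ => ?_
    rw [← expBool]
    refine Finset.expect_congr rfl fun a _ => ?_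
    rw [← expBool]
    refine Finset.expect_congr rfl fun a' _ => ?_
    rw [e1 x p, e1 a q, e1 a' s]
  rw [e4]
  rcases box_law (HH G i j k k') p q r s t with h | h | h
  · rw [h, avN_HH G i j hk]; exact hN
  · rw [h, avP_HH G i j hk]; exact hP
  · rw [h, avP'_HH G i j k k']; exact hP'

end

section
variable {n m Q D : ℕ} [NeZero Q]

theorem ind_mono {p q : Prop} (h : p → q) : ind p ≤ ind q := by
  by_cases hp : p
  · rw [ind_true hp, ind_true (h hp)]
  · rw [ind_false hp]; exact ind_nonneg _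

/-- The probability that the triangle `(i, j, k)` is read. -/
noncomputable def rd (P : Place n m Q) (t : Tree n D) (i j k : Fin m) : ℝ :=
  bas (fun X Y Z => ind (AllRead P t i j k X Y Z))

theorem rd_nonneg (P : Place n m Q) (t : Tree n D) (i j k : Fin m) : 0 ≤ rd P t i j k :=
  bas_nonneg _ fun _ _ _ => ind_nonneg _

/-- Under the law planted on `(i, j, k)` this triangle is read at most three times as often. -/
theorem pla_read (P : Place n m Q) (t : Tree n D) (i j k : Fin m) :
    pla (fun X Y Z => ind (AllRead P t i j k X Y Z)) i j k ≤ 3 * rd P t i j k := by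
  classical
  set E1 : Option (Key m) := some (0, (i, j)) with hE1
  set E2 : Option (Key m) := some (1, (j, k)) with hE2
  set E3 : Option (Key m) := some (2, (k, i)) with hE3
  set L1 : Cfg m Q → Cfg m Q → Cfg m Q → ℝ := fun X Y Z =>
    ind (Last (t.path P.κ (P.W X Y Z)) E1 E2 E3) with hL1
  set L2 : Cfg m Q → Cfg m Q → Cfg m Q → ℝ := fun X Y Z =>
    ind (Last (t.path P.κ (P.W X Y Z)) E2 E1 E3) with hL2
  set L3 : Cfg m Q → Cfg m Q → Cfg m Q → ℝ := fun X Y Z =>
    ind (Last (t.path P.κ (P.W X Y Z)) E3 E1 E2) with hL3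
  have all1 : bas L1 ≤ rd P t i j k := bas_mono _ _ fun X Y Z =>
    ind_mono fun h => ⟨h.mem.1, h.mem.2.1, h.mem.2.2⟩
  have all2 : bas L2 ≤ rd P t i j k := bas_mono _ _ fun X Y Z =>
    ind_mono fun h => ⟨h.mem.2.1, h.mem.1, h.mem.2.2⟩
  have all3 : bas L3 ≤ rd P t i j k := bas_mono _ _ fun X Y Z =>
    ind_mono fun h => ⟨h.mem.2.1, h.mem.2.2, h.mem.1⟩
  have hle : ∀ X Y Z, ind (AllRead P t i j k X Y Z) ≤ (L1 X Y Z + L2 X Y Z) + L3 X Y Z := by
    intro X Y Z
    have n1 := ind_nonneg (Last (t.path P.κ (P.W X Y Z)) E1 E2 E3)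
    have n2 := ind_nonneg (Last (t.path P.κ (P.W X Y Z)) E2 E1 E3)
    have n3 := ind_nonneg (Last (t.path P.κ (P.W X Y Z)) E3 E1 E2)
    simp only [hL1, hL2, hL3]
    by_cases h : AllRead P t i j k X Y Z
    · rw [ind_true h]
      rcases exists_last _ E1 E2 E3 (by simp [hE1, hE2]) (by simp [hE1, hE3])
        (by simp [hE2, hE3]) h.1 h.2.1 h.2.2 with hl | hl | hl
      · rw [ind_true hl]; linarith
      · rw [ind_true hl]; linarith
      · rw [ind_true hl]; linarith
    · rw [ind_false h]; linarith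
  have p1 := pla_no_a L1 i j k
    (fun X Y Z c => t.inv_last P.κ _ _ E1 E2 E3 (P.h1 X Y Z (i, j) c))
  have p2 := pla_no_b L2 i j k
    (fun X Y Z c => t.inv_last P.κ _ _ E2 E1 E3 (P.h2 X Y Z (j, k) c))
  have p3 := pla_no_c L3 i j k
    (fun X Y Z c => t.inv_last P.κ _ _ E3 E1 E2 (P.h3 X Y Z (k, i) c))
  have le := pla_mono _ _ hle i j k
  rw [pla_add (fun X Y Z => L1 X Y Z + L2 X Y Z) L3, pla_add L1 L2, p1, p2, p3] at le
  linarith

/-- Reading is not changed by a change at a key that is not read. -/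
theorem inv_ind (κ : Fin n → Fin n → Option (Key m)) (t : Tree n D) (w w' : Wts n)
    (e : Option (Key m)) (h : ∀ i j, κ i j ≠ e → w' i j = w i j)
    (R : List (Option (Key m)) → Prop) :
    ind (e ∉ t.path κ w' ∧ R (t.path κ w')) = ind (e ∉ t.path κ w ∧ R (t.path κ w)) := by
  by_cases he : e ∈ t.path κ w
  · have he' : e ∈ t.path κ w' := (t.before κ w w' e h).2.2 he
    rw [ind_false (fun h => h.1 he'), ind_false (fun h => h.1 he)]
  · obtain ⟨h1, h2⟩ := t.agree κ w w' e h he
    rw [h1]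

/-- The law planted on the triangle `(i, j, k')`. -/
theorem pla_read' (P : Place n m Q) (t : Tree n D) (i j k k' : Fin m) :
    pla (fun X Y Z => ind (AllRead P t i j k X Y Z)) i j k' ≤
      2 * rd P t i j k + 3 * rd P t i j k' := by
  classical
  set E2 : Option (Key m) := some (1, (j, k')) with hE2
  set E3 : Option (Key m) := some (2, (k', i)) with hE3
  set R : List (Option (Key m)) → Prop := fun l =>
    some (0, (i, j)) ∈ l ∧ some (1, (j, k)) ∈ l ∧ some (2, (k, i)) ∈ l with hR
  set G2 : Cfg m Q → Cfg m Q → Cfg m Q → ℝ := fun X Y Z =>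
    ind (E2 ∉ t.path P.κ (P.W X Y Z) ∧ R (t.path P.κ (P.W X Y Z))) with hG2
  set G3 : Cfg m Q → Cfg m Q → Cfg m Q → ℝ := fun X Y Z =>
    ind (E3 ∉ t.path P.κ (P.W X Y Z) ∧ R (t.path P.κ (P.W X Y Z))) with hG3
  set A' : Cfg m Q → Cfg m Q → Cfg m Q → ℝ := fun X Y Z =>
    ind (AllRead P t i j k' X Y Z) with hA'
  have g2 : bas G2 ≤ rd P t i j k := bas_mono _ _ fun X Y Z => ind_mono fun h => h.2
  have g3 : bas G3 ≤ rd P t i j k := bas_mono _ _ fun X Y Z => ind_mono fun h => h.2
  have hle : ∀ X Y Z, ind (AllRead P t i j k X Y Z) ≤ (G2 X Y Z + G3 X Y Z) + A' X Y Z := by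
    intro X Y Z
    have n2 : 0 ≤ G2 X Y Z := ind_nonneg _
    have n3 : 0 ≤ G3 X Y Z := ind_nonneg _
    have n4 : 0 ≤ A' X Y Z := ind_nonneg _
    by_cases h : AllRead P t i j k X Y Z
    · rw [ind_true h]
      by_cases c2 : E2 ∈ t.path P.κ (P.W X Y Z)
      · by_cases c3 : E3 ∈ t.path P.κ (P.W X Y Z)
        · have : A' X Y Z = 1 := ind_true ⟨h.1, c2, c3⟩
          linarith
        · have : G3 X Y Z = 1 := ind_true ⟨c3, h⟩
          linarith
      · have : G2 X Y Z = 1 := ind_true ⟨c2, h⟩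
        linarith
    · rw [ind_false h]; linarith
  have p2 := pla_no_b G2 i j k'
    (fun X Y Z c => inv_ind P.κ t _ _ E2 (P.h2 X Y Z (j, k') c) R)
  have p3 := pla_no_c G3 i j k'
    (fun X Y Z c => inv_ind P.κ t _ _ E3 (P.h3 X Y Z (k', i) c) R)
  have p4 := pla_read P t i j k'
  have le := pla_mono _ _ hle i j k'
  rw [pla_add (fun X Y Z => G2 X Y Z + G3 X Y Z) A', pla_add G2 G3, p2, p3] at le
  linarith

/-- The number of triangles read. -/
theorem sum_rd (P : Place n m Q) (t : Tree n D) :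
    ∑ i, ∑ j, ∑ k, rd P t i j k ≤ √((D : ℝ) ^ 3) := by
  classical
  have hpt : ∀ X Y Z, ∑ i, ∑ j, ∑ k, ind (AllRead P t i j k X Y Z) ≤ √((D : ℝ) ^ 3) := by
    intro X Y Z
    have hl := t.path_length P.κ (P.W X Y Z)
    set l := t.path P.κ (P.W X Y Z) with hl'
    have c1 := card_path l D hl 0
    have c2 := card_path l D hl 1
    have c3 := card_path l D hl 2
    have ht := tri_sq (fun i j : Fin m => if some (0, (i, j)) ∈ l then (1 : ℝ) else 0)
      (fun i j : Fin m => if some (1, (i, j)) ∈ l then (1 : ℝ) else 0)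
      (fun i j : Fin m => if some (2, (i, j)) ∈ l then (1 : ℝ) else 0)
    have e : ∑ i, ∑ j, ∑ k, ind (AllRead P t i j k X Y Z) = ∑ i : Fin m, ∑ j : Fin m, ∑ k : Fin m,
        (if some (0, (i, j)) ∈ l then (1 : ℝ) else 0) *
          (if some (1, (j, k)) ∈ l then (1 : ℝ) else 0) *
          (if some (2, (k, i)) ∈ l then (1 : ℝ) else 0) := by
      refine Finset.sum_congr rfl fun i _ => Finset.sum_congr rfl fun j _ =>
        Finset.sum_congr rfl fun k _ => ?_
      simp only [ind, AllRead, ← hl']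
      by_cases a1 : some (0, (i, j)) ∈ l <;> by_cases a2 : some (1, (j, k)) ∈ l <;>
        by_cases a3 : some (2, (k, i)) ∈ l <;> simp [a1, a2, a3]
    rw [e]
    refine Real.le_sqrt_of_sq_le (ht.trans ?_)
    have n2 : (0 : ℝ) ≤ ∑ i : Fin m, ∑ j : Fin m,
        (if some (1, (i, j)) ∈ l then (1 : ℝ) else 0) ^ 2 :=
      Finset.sum_nonneg fun _ _ => Finset.sum_nonneg fun _ _ => sq_nonneg _
    have n3 : (0 : ℝ) ≤ ∑ i : Fin m, ∑ j : Fin m,
        (if some (2, (i, j)) ∈ l then (1 : ℝ) else 0) ^ 2 :=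
      Finset.sum_nonneg fun _ _ => Finset.sum_nonneg fun _ _ => sq_nonneg _
    have hD : (0 : ℝ) ≤ D := Nat.cast_nonneg D
    calc _ ≤ ((D : ℝ) * D) * D := mul_le_mul (mul_le_mul c1 c2 n2 hD) c3 n3 (by positivity)
      _ = _ := by ring
  calc ∑ i, ∑ j, ∑ k, rd P t i j k
      = bas (fun X Y Z => ∑ i, ∑ j, ∑ k, ind (AllRead P t i j k X Y Z)) := by
        unfold rd
        simp only [bas_sum]
    _ ≤ bas (fun _ _ _ : Cfg m Q => √((D : ℝ) ^ 3)) := bas_mono _ _ hpt
    _ = √((D : ℝ) ^ 3) := by rw [bas_const]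

/-- If a mixed third difference is not zero, then the triangle is read at some vertex. -/
theorem exists_vertex (P : Place n m Q) (t : Tree n D) (i j : Fin m) {k k' : Fin m}
    (hk : k ≠ k') (X Y Z : Cfg m Q) (x a a' : Bool → ZMod Q)
    (h : ev (fun X Y Z => t.eval (P.W X Y Z)) i j k k' X Y Z x a a') :
    ∃ p q r s t', AllRead P t i j k (Function.update X (i, j) (x p))
      (Function.update (Function.update Y (j, k) (a q)) (j, k') (a' s))
      (Function.update (Function.update Z (k, i) (vb x a r)) (k', i) (vb' x a' t')) := by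
  obtain ⟨s, t', h⟩ := h
  by_contra hcon
  push Not at hcon
  refine h ?_
  have hY : (j, k) ≠ (j, k') := fun h => hk (Prod.ext_iff.1 h).2
  have hZ : (k, i) ≠ (k', i) := fun h => hk (Prod.ext_iff.1 h).1
  have idem : ∀ (V : Cfg m Q) (e : Fin m × Fin m) (u v : ZMod Q),
      Function.update V e v = Function.update (Function.update V e u) e v := by
    intro V e u v
    rw [Function.update_idem]
  refine third P.κ t (some (0, (i, j))) (some (1, (j, k))) (some (2, (k, i)))
    (fun p q r => P.W (Function.update X (i, j) (x p))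
      (Function.update (Function.update Y (j, k) (a q)) (j, k') (a' s))
      (Function.update (Function.update Z (k, i) (vb x a r)) (k', i) (vb' x a' t'))) ?_ ?_ ?_ ?_
  · intro p p' q r u v huv
    rw [idem X (i, j) (x p) (x p')]
    exact P.h1 _ _ _ _ _ _ _ huv
  · intro p q q' r u v huv
    rw [Function.update_comm hY (a q') (a' s) Y, Function.update_comm hY (a q) (a' s) Y,
      idem (Function.update Y (j, k') (a' s)) (j, k) (a q) (a q')]
    exact P.h2 _ _ _ _ _ _ _ huv
  · intro p q r r' u v huv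
    rw [Function.update_comm hZ (vb x a r') (vb' x a' t') Z,
      Function.update_comm hZ (vb x a r) (vb' x a' t') Z,
      idem (Function.update Z (k', i) (vb' x a' t')) (k, i) (vb x a r) (vb x a r')]
    exact P.h3 _ _ _ _ _ _ _ huv
  · intro p q r hall
    exact hcon p q r s t' hall

open Classical in
/-- One pair of triangles. -/
theorem cap_one (P : Place n m Q) (t : Tree n D) (i j : Fin m) {k k' : Fin m} (hk : k ≠ k') :
    (𝔼 X, 𝔼 Y, 𝔼 Z, 𝔼 x : Bool → ZMod Q, 𝔼 a : Bool → ZMod Q, 𝔼 a' : Bool → ZMod Q,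
      if ev (fun X Y Z => t.eval (P.W X Y Z)) i j k k' X Y Z x a a' then (1 : ℝ) else 0) ≤
      96 * (rd P t i j k + rd P t i j k') := by
  have n1 := rd_nonneg P t i j k
  have n2 := rd_nonneg P t i j k'
  have hv : ∀ p q r s t' : Bool, (𝔼 X, 𝔼 Y, 𝔼 Z, 𝔼 x : Bool → ZMod Q, 𝔼 a : Bool → ZMod Q,
      𝔼 a' : Bool → ZMod Q, F5 (fun X Y Z => ind (AllRead P t i j k X Y Z)) i j k k' X Y Z
        (x p) (a q) (vb x a r) (a' s) (vb' x a' t')) ≤ 3 * (rd P t i j k + rd P t i j k') := by
    intro p q r s t'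
    refine vertex _ i j hk p q r s t' _ ?_ ?_ ?_
    · change rd P t i j k ≤ _
      linarith
    · have := pla_read P t i j k
      linarith
    · have := pla_read' P t i j k k'
      linarith
  have hle : ∀ X Y Z (x a a' : Bool → ZMod Q),
      (if ev (fun X Y Z => t.eval (P.W X Y Z)) i j k k' X Y Z x a a' then (1 : ℝ) else 0) ≤
      ∑ p, ∑ q, ∑ r, ∑ s, ∑ t', F5 (fun X Y Z => ind (AllRead P t i j k X Y Z)) i j k k' X Y Z
        (x p) (a q) (vb x a r) (a' s) (vb' x a' t') := by
    intro X Y Z x a a'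
    have nn : ∀ p q r s t', 0 ≤ F5 (fun X Y Z => ind (AllRead P t i j k X Y Z)) i j k k' X Y Z
        (x p) (a q) (vb x a r) (a' s) (vb' x a' t') := fun _ _ _ _ _ => ind_nonneg _
    split_ifs with h
    · obtain ⟨p, q, r, s, t', h⟩ := exists_vertex P t i j hk X Y Z x a a' h
      have e : F5 (fun X Y Z => ind (AllRead P t i j k X Y Z)) i j k k' X Y Z
        (x p) (a q) (vb x a r) (a' s) (vb' x a' t') = 1 := ind_true h
      rw [← e]
      refine le_trans ?_ (Finset.single_le_sum (f := fun p => ∑ q, ∑ r, ∑ s, ∑ t',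
        F5 (fun X Y Z => ind (AllRead P t i j k X Y Z)) i j k k' X Y Z
        (x p) (a q) (vb x a r) (a' s) (vb' x a' t')) (fun p _ => Finset.sum_nonneg fun q _ =>
        Finset.sum_nonneg fun r _ => Finset.sum_nonneg fun s _ => Finset.sum_nonneg fun t' _ =>
        nn p q r s t') (Finset.mem_univ p))
      refine le_trans ?_ (Finset.single_le_sum (f := fun q => ∑ r, ∑ s, ∑ t',
        F5 (fun X Y Z => ind (AllRead P t i j k X Y Z)) i j k k' X Y Z
        (x p) (a q) (vb x a r) (a' s) (vb' x a' t')) (fun q _ =>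
        Finset.sum_nonneg fun r _ => Finset.sum_nonneg fun s _ => Finset.sum_nonneg fun t' _ =>
        nn p q r s t') (Finset.mem_univ q))
      refine le_trans ?_ (Finset.single_le_sum (f := fun r => ∑ s, ∑ t',
        F5 (fun X Y Z => ind (AllRead P t i j k X Y Z)) i j k k' X Y Z
        (x p) (a q) (vb x a r) (a' s) (vb' x a' t')) (fun r _ =>
        Finset.sum_nonneg fun s _ => Finset.sum_nonneg fun t' _ =>
        nn p q r s t') (Finset.mem_univ r))
      refine le_trans ?_ (Finset.single_le_sum (f := fun s => ∑ t',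
        F5 (fun X Y Z => ind (AllRead P t i j k X Y Z)) i j k k' X Y Z
        (x p) (a q) (vb x a r) (a' s) (vb' x a' t')) (fun s _ => Finset.sum_nonneg fun t' _ =>
        nn p q r s t') (Finset.mem_univ s))
      exact Finset.single_le_sum (f := fun t' =>
        F5 (fun X Y Z => ind (AllRead P t i j k X Y Z)) i j k k' X Y Z
        (x p) (a q) (vb x a r) (a' s) (vb' x a' t')) (fun t' _ =>
        nn p q r s t') (Finset.mem_univ t')
    · exact Finset.sum_nonneg fun p _ => Finset.sum_nonneg fun q _ => Finset.sum_nonneg fun r _ =>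
        Finset.sum_nonneg fun s _ => Finset.sum_nonneg fun t' _ => nn p q r s t'
  calc _ ≤ 𝔼 X, 𝔼 Y, 𝔼 Z, 𝔼 x : Bool → ZMod Q, 𝔼 a : Bool → ZMod Q, 𝔼 a' : Bool → ZMod Q,
      ∑ p, ∑ q, ∑ r, ∑ s, ∑ t', F5 (fun X Y Z => ind (AllRead P t i j k X Y Z)) i j k k' X Y Z
        (x p) (a q) (vb x a r) (a' s) (vb' x a' t') :=
        Finset.expect_le_expect fun X _ => Finset.expect_le_expect fun Y _ =>
          Finset.expect_le_expect fun Z _ => Finset.expect_le_expect fun x _ =>
          Finset.expect_le_expect fun a _ => Finset.expect_le_expect fun a' _ => hle X Y Z x a a'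
    _ = ∑ p, ∑ q, ∑ r, ∑ s, ∑ t', 𝔼 X, 𝔼 Y, 𝔼 Z, 𝔼 x : Bool → ZMod Q, 𝔼 a : Bool → ZMod Q,
        𝔼 a' : Bool → ZMod Q, F5 (fun X Y Z => ind (AllRead P t i j k X Y Z)) i j k k' X Y Z
        (x p) (a q) (vb x a r) (a' s) (vb' x a' t') := by
        simp only [Finset.expect_sum_comm]
    _ ≤ ∑ p : Bool, ∑ q : Bool, ∑ r : Bool, ∑ s : Bool, ∑ t' : Bool,
        3 * (rd P t i j k + rd P t i j k') :=
        Finset.sum_le_sum fun p _ => Finset.sum_le_sum fun q _ => Finset.sum_le_sum fun r _ =>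
          Finset.sum_le_sum fun s _ => Finset.sum_le_sum fun t' _ => hv p q r s t'
    _ = 96 * (rd P t i j k + rd P t i j k') := by
        simp only [Fintype.sum_bool]
        ring

/-- The capacity of a decision tree with `D` adaptive probes and arbitrary real outputs. -/
theorem tree_cap (P : Place n m Q) (t : Tree n D) :
    cap (fun X Y Z => t.eval (P.W X Y Z)) ≤ 192 * m * √((D : ℝ) ^ 3) := by
  classical
  have nn := rd_nonneg P t
  have h1 : cap (fun X Y Z => t.eval (P.W X Y Z)) ≤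
      ∑ i, ∑ j, ∑ k, ∑ k' : Fin m, 96 * (rd P t i j k + rd P t i j k') := by
    unfold cap
    refine Finset.sum_le_sum fun i _ => Finset.sum_le_sum fun j _ => Finset.sum_le_sum fun k _ => ?_
    refine le_trans (Finset.sum_le_sum fun k' hk' =>
      cap_one P t i j (Finset.ne_of_mem_erase hk').symm) ?_
    refine Finset.sum_le_sum_of_subset_of_nonneg (Finset.subset_univ _) fun k' _ _ => ?_
    have := nn i j k
    have := nn i j k'
    linarith
  have h2 : ∑ i, ∑ j, ∑ k, ∑ k' : Fin m, 96 * (rd P t i j k + rd P t i j k') =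
      192 * m * ∑ i, ∑ j, ∑ k, rd P t i j k := by
    have e : ∀ i j, ∑ k, ∑ k' : Fin m, 96 * (rd P t i j k + rd P t i j k') =
        192 * m * ∑ k, rd P t i j k := by
      intro i j
      simp only [← Finset.mul_sum, Finset.sum_add_distrib, Finset.sum_const, Finset.card_univ,
        Fintype.card_fin, nsmul_eq_mul]
      ring
    rw [Finset.mul_sum]
    refine Finset.sum_congr rfl fun i _ => ?_
    rw [Finset.mul_sum]
    exact Finset.sum_congr rfl fun j _ => e i j
  refine h1.trans (h2.le.trans ?_)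
  exact mul_le_mul_of_nonneg_left (sum_rd P t) (by positivity)

end

end Pool.Agent.Helper50.UV
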