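import Pool.Agent.Helper50.UV.TreeCap
import Pool.Agent.Helper8.VT.LowerL

/-!
The exchange of the two triangles, and the probability of a bad structure.
-/

set_option autoImplicit false
set_option linter.unusedSectionVars false

open Finset
open scoped BigOperators

namespace Pool.Agent.Helper50.UV

open Pool.Agent.Helper8.VT Pool.Agent.Helper8.UV
open Pool.Agent.Helper8.VS (resample' ind ind_nonneg ind_le_one ind_true ind_false)

section
variable {m Q : ℕ}

/-- Some mixed third difference of `G` on the triangle `(i, j, k')` is not zero. -/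
def ev2 (G : Cfg m Q → Cfg m Q → Cfg m Q → ℝ) (i j k k' : Fin m) (X Y Z : Cfg m Q)
    (x a a' : Bool → ZMod Q) : Prop :=
  ∃ q r : Bool, D3 (fun u v w => F5 G i j k k' X Y Z u (a q) (vb x a r) v w) x a' (vb' x a') ≠ 0

/-- Exchange of the two values. -/
def neg (x : Bool → ZMod Q) : Bool → ZMod Q := fun b => x (!b)

theorem F5_swap (G : Cfg m Q → Cfg m Q → Cfg m Q → ℝ) (i j : Fin m) {k k' : Fin m} (hk : k ≠ k')
    (X Y Z : Cfg m Q) (u v w v' w' : ZMod Q) :
    F5 G i j k' k X Y Z u v w v' w' = F5 G i j k k' X Y Z u v' w' v w := by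
  have hY : (j, k') ≠ (j, k) := fun h => hk (Prod.ext_iff.1 h).2.symm
  have hZ : (k', i) ≠ (k, i) := fun h => hk (Prod.ext_iff.1 h).1.symm
  unfold F5
  rw [Function.update_comm hY v v' Y, Function.update_comm hZ w w' Z]

theorem ev2_iff (G : Cfg m Q → Cfg m Q → Cfg m Q → ℝ) (i j : Fin m) {k k' : Fin m} (hk : k ≠ k')
    (X Y Z : Cfg m Q) (x a a' : Bool → ZMod Q) :
    ev2 G i j k k' X Y Z x a a' ↔ ev G i j k' k X Y Z (neg x) (neg a') (neg a) := by
  have e1 : vb (neg x) (neg a') = vb' x a' := by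
    funext r
    simp only [vb, vb', neg, Bool.not_true, Bool.not_not]
  have e2 : ∀ t, vb' (neg x) (neg a) t = vb x a t := by
    intro t
    simp only [vb, vb', neg, Bool.not_false]
  have e3 : ∀ (F : ZMod Q → ZMod Q → ZMod Q → ℝ) (b : Bool → ZMod Q),
      D3 F (neg x) (neg a') b = D3 F x a' b := by
    intro F b
    have h1 := D3_not_x F x (neg a') b
    have h2 := D3_not_a F x a' b
    change D3 F (neg x) (neg a') b = _ at h1
    change D3 F x (neg a') b = _ at h2
    rw [h1, h2, neg_neg]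
  unfold ev2 ev
  simp only [F5_swap G i j hk, e1, e2, e3]
  constructor
  · rintro ⟨q, r, h⟩
    refine ⟨!q, r, ?_⟩
    simpa only [neg, Bool.not_not] using h
  · rintro ⟨s, t, h⟩
    exact ⟨!s, t, h⟩

end

section
variable {m Q : ℕ} [NeZero Q]

theorem exp_neg (f : (Bool → ZMod Q) → ℝ) : (𝔼 x, f (neg x)) = 𝔼 x, f x := by
  refine Fintype.expect_equiv ⟨neg, neg, fun x => ?_, fun x => ?_⟩ _ _ (fun x => rfl)
  · funext b; simp [neg]
  · funext b; simp [neg]

open Classical in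
/-- The second triangle. -/
theorem cap_swap (G : Cfg m Q → Cfg m Q → Cfg m Q → ℝ) :
    ∑ i, ∑ j, ∑ k, ∑ k' ∈ univ.erase k, (𝔼 X, 𝔼 Y, 𝔼 Z, 𝔼 x : Bool → ZMod Q,
      𝔼 a : Bool → ZMod Q, 𝔼 a' : Bool → ZMod Q,
      if ev2 G i j k k' X Y Z x a a' then (1 : ℝ) else 0) = cap G := by
  unfold cap
  refine Finset.sum_congr rfl fun i _ => Finset.sum_congr rfl fun j _ => ?_
  rw [Finset.sum_comm' (s := univ) (t := fun k => univ.erase k) (t' := univ)
    (s' := fun k' => univ.erase k') (by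
      intro k k'
      simp only [Finset.mem_univ, Finset.mem_erase, true_and, and_true]
      exact ne_comm)]
  refine Finset.sum_congr rfl fun k' _ => Finset.sum_congr rfl fun k hk => ?_
  have hne : k ≠ k' := Finset.ne_of_mem_erase hk
  refine Finset.expect_congr rfl fun X _ => Finset.expect_congr rfl fun Y _ =>
    Finset.expect_congr rfl fun Z _ => ?_
  simp only [ev2_iff G i j hne]
  rw [exp_neg (fun x => 𝔼 a : Bool → ZMod Q, 𝔼 a' : Bool → ZMod Q,
    if ev G i j k' k X Y Z x (neg a') (neg a) then (1 : ℝ) else 0)]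
  refine Finset.expect_congr rfl fun x _ => ?_
  rw [exp_neg (fun a => 𝔼 a' : Bool → ZMod Q,
    if ev G i j k' k X Y Z x (neg a') a then (1 : ℝ) else 0)]
  have h1 : ∀ a : Bool → ZMod Q, (𝔼 a' : Bool → ZMod Q,
      if ev G i j k' k X Y Z x (neg a') a then (1 : ℝ) else 0) =
      𝔼 a' : Bool → ZMod Q, if ev G i j k' k X Y Z x a' a then (1 : ℝ) else 0 := fun a =>
    exp_neg (fun a' => if ev G i j k' k X Y Z x a' a then (1 : ℝ) else 0)
  simp only [h1]
  exact Finset.expect_comm _ _ _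

/-- The average over the six values at a vertex with the null law. -/
theorem box_null (H : ZMod Q → ZMod Q → ZMod Q → ZMod Q → ZMod Q → ℝ) (p q r s t : Bool)
    (h : (p = false ∧ q ≠ r ∧ s ≠ t) ∨ (p = true ∧ q = r ∧ s = t)) :
    (𝔼 x0, 𝔼 x1, 𝔼 a0, 𝔼 a1, 𝔼 c0, 𝔼 c1, H (cond p x1 x0) (cond q a1 a0) (-x1 - cond r a0 a1)
      (cond s c1 c0) (-x0 - cond t c1 c0)) = avN H := by
  set L := (𝔼 x0, 𝔼 x1, 𝔼 a0, 𝔼 a1, 𝔼 c0, 𝔼 c1, H (cond p x1 x0) (cond q a1 a0)
      (-x1 - cond r a0 a1) (cond s c1 c0) (-x0 - cond t c1 c0)) with hL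
  have h1 : L = 𝔼 x0, 𝔼 x1, 𝔼 a0, 𝔼 a1, (if s = t then
      𝔼 v', H (cond p x1 x0) (cond q a1 a0) (-x1 - cond r a0 a1) v' (-x0 - v') else
      𝔼 v', 𝔼 w', H (cond p x1 x0) (cond q a1 a0) (-x1 - cond r a0 a1) v' w') := by
    rw [hL]
    refine Finset.expect_congr rfl fun x0 _ => Finset.expect_congr rfl fun x1 _ =>
      Finset.expect_congr rfl fun a0 _ => Finset.expect_congr rfl fun a1 _ => ?_
    exact avg_c (fun v w => H (cond p x1 x0) (cond q a1 a0) (-x1 - cond r a0 a1) v w) x0 s t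
  have h2 : L = 𝔼 x0, 𝔼 x1, (if q = r then
      𝔼 v, 𝔼 w, (if s = t then 𝔼 v', H (cond p x1 x0) v w v' (-x0 - v') else
        𝔼 v', 𝔼 w', H (cond p x1 x0) v w v' w') else
      𝔼 v, (if s = t then 𝔼 v', H (cond p x1 x0) v (-x1 - v) v' (-x0 - v') else
        𝔼 v', 𝔼 w', H (cond p x1 x0) v (-x1 - v) v' w')) := by
    rw [h1]
    refine Finset.expect_congr rfl fun x0 _ => Finset.expect_congr rfl fun x1 _ => ?_
    exact avg_a (fun v w => if s = t then 𝔼 v', H (cond p x1 x0) v w v' (-x0 - v') else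
      𝔼 v', 𝔼 w', H (cond p x1 x0) v w v' w') x1 q r
  have hx := fun (x : ZMod Q) (f : ZMod Q → ℝ) => expect_neg_sub x f
  rcases h with ⟨hp, hqr, hst⟩ | ⟨hp, hqr, hst⟩
  · simp only [hst, hqr, hp, if_false, cond_false] at h2
    rw [h2]
    unfold avN
    refine Finset.expect_congr rfl fun x0 _ => ?_
    rw [Finset.expect_comm]
    refine Finset.expect_congr rfl fun v _ => ?_
    have e : ∀ x1 : ZMod Q, -x1 - v = -v - x1 := fun x0 => by ring
    simp only [e]
    exact hx v (fun w => 𝔼 v', 𝔼 w', H x0 v w v' w')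
  · simp only [hst, hqr, hp, if_true, cond_true] at h2
    rw [h2, Finset.expect_comm]
    unfold avN
    refine Finset.expect_congr rfl fun x1 _ => ?_
    rw [Finset.expect_comm]
    refine Finset.expect_congr rfl fun v _ => ?_
    rw [Finset.expect_comm]
    refine Finset.expect_congr rfl fun w _ => ?_
    rw [Finset.expect_comm]
    refine Finset.expect_congr rfl fun v' _ => ?_
    have e : ∀ x0 : ZMod Q, -x0 - v' = -v' - x0 := fun x0 => by ring
    simp only [e]
    exact hx v' (fun w' => H x1 v w v' w')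

/-- The average over the structure of `F5 G` at a vertex with the null law. -/
theorem vertex_null (G : Cfg m Q → Cfg m Q → Cfg m Q → ℝ) (i j : Fin m) {k k' : Fin m}
    (hk : k ≠ k') (p q r s t : Bool)
    (h : (p = false ∧ q ≠ r ∧ s ≠ t) ∨ (p = true ∧ q = r ∧ s = t)) :
    (𝔼 X, 𝔼 Y, 𝔼 Z, 𝔼 x : Bool → ZMod Q, 𝔼 a : Bool → ZMod Q, 𝔼 a' : Bool → ZMod Q,
      F5 G i j k k' X Y Z (x p) (a q) (vb x a r) (a' s) (vb' x a' t)) = bas G := by
  have sw : ∀ {T : Type} [Fintype T] (f : Cfg m Q → Cfg m Q → Cfg m Q → T → ℝ),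
      (𝔼 X, 𝔼 Y, 𝔼 Z, 𝔼 t, f X Y Z t) = 𝔼 t, 𝔼 X, 𝔼 Y, 𝔼 Z, f X Y Z t := by
    intro T _ f
    have e1 : ∀ X Y, (𝔼 Z, 𝔼 t, f X Y Z t) = 𝔼 t, 𝔼 Z, f X Y Z t := fun X Y =>
      Finset.expect_comm _ _ _
    simp only [e1]
    have e2 : ∀ X, (𝔼 Y, 𝔼 t, 𝔼 Z, f X Y Z t) = 𝔼 t, 𝔼 Y, 𝔼 Z, f X Y Z t := fun X =>
      Finset.expect_comm _ _ _
    simp only [e2]
    exact Finset.expect_comm _ _ _
  rw [sw]
  simp only [sw]
  change (𝔼 x : Bool → ZMod Q, 𝔼 a : Bool → ZMod Q, 𝔼 a' : Bool → ZMod Q,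
    HH G i j k k' (x p) (a q) (vb x a r) (a' s) (vb' x a' t)) = bas G
  have e1 : ∀ (x : Bool → ZMod Q) (p : Bool), x p = cond p (x true) (x false) := by
    intro x p; cases p <;> rfl
  have e2 : ∀ (x a : Bool → ZMod Q), vb x a r = - x true - cond r (a false) (a true) := by
    intro x a; cases r <;> rfl
  have e3 : ∀ (x a' : Bool → ZMod Q), vb' x a' t = - x false - cond t (a' true) (a' false) := by
    intro x a'; cases t <;> rfl
  simp only [e2, e3]
  have e4 : (𝔼 x : Bool → ZMod Q, 𝔼 a : Bool → ZMod Q, 𝔼 a' : Bool → ZMod Q,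
      HH G i j k k' (x p) (a q) (- x true - cond r (a false) (a true)) (a' s)
        (- x false - cond t (a' true) (a' false))) =
      𝔼 x0, 𝔼 x1, 𝔼 a0, 𝔼 a1, 𝔼 c0, 𝔼 c1, HH G i j k k' (cond p x1 x0) (cond q a1 a0)
        (-x1 - cond r a0 a1) (cond s c1 c0) (-x0 - cond t c1 c0) := by
    rw [← expBool]
    refine Finset.expect_congr rfl fun x _ => ?_
    rw [← expBool]
    refine Finset.expect_congr rfl fun a _ => ?_
    rw [← expBool]
    refine Finset.expect_congr rfl fun a' _ => ?_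
    rw [e1 x p, e1 a q, e1 a' s]
  rw [e4, box_null (HH G i j k k') p q r s t h, avN_HH G i j hk]

/-- A structure is bad if one of the eight no-vertices has a zero triangle. -/
def BadS (i j k k' : Fin m) (X Y Z : Cfg m Q) (x a a' : Bool → ZMod Q) : Prop :=
  ∃ q s : Bool,
    Zero (Function.update X (i, j) (x false))
      (Function.update (Function.update Y (j, k) (a q)) (j, k') (a' s))
      (Function.update (Function.update Z (k, i) (vb x a (!q))) (k', i) (vb' x a' (!s))) ∨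
    Zero (Function.update X (i, j) (x true))
      (Function.update (Function.update Y (j, k) (a q)) (j, k') (a' s))
      (Function.update (Function.update Z (k, i) (vb x a q)) (k', i) (vb' x a' s))

open Classical in
theorem bad_prob (i j : Fin m) {k k' : Fin m} (hk : k ≠ k') :
    (𝔼 X, 𝔼 Y, 𝔼 Z, 𝔼 x : Bool → ZMod Q, 𝔼 a : Bool → ZMod Q, 𝔼 a' : Bool → ZMod Q,
      if BadS i j k k' X Y Z x a a' then (1 : ℝ) else 0) ≤ 8 * (m : ℝ) ^ 3 / Q := by
  set G : Cfg m Q → Cfg m Q → Cfg m Q → ℝ := fun X Y Z => ind (Zero X Y Z) with hG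
  have hG0 : ∀ X Y Z u v w v' w', 0 ≤ F5 G i j k k' X Y Z u v w v' w' := fun _ _ _ _ _ _ _ _ =>
    ind_nonneg _
  have hle : ∀ X Y Z (x a a' : Bool → ZMod Q),
      (if BadS i j k k' X Y Z x a a' then (1 : ℝ) else 0) ≤
      ∑ q : Bool, ∑ s : Bool,
        (F5 G i j k k' X Y Z (x false) (a q) (vb x a (!q)) (a' s) (vb' x a' (!s)) +
          F5 G i j k k' X Y Z (x true) (a q) (vb x a q) (a' s) (vb' x a' s)) := by
    intro X Y Z x a a'
    have nn : ∀ q s, 0 ≤ F5 G i j k k' X Y Z (x false) (a q) (vb x a (!q)) (a' s)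
        (vb' x a' (!s)) + F5 G i j k k' X Y Z (x true) (a q) (vb x a q) (a' s) (vb' x a' s) :=
      fun q s => add_nonneg (hG0 _ _ _ _ _ _ _ _) (hG0 _ _ _ _ _ _ _ _)
    split_ifs with h
    · obtain ⟨q, s, h⟩ := h
      have h1 : 1 ≤ F5 G i j k k' X Y Z (x false) (a q) (vb x a (!q)) (a' s)
          (vb' x a' (!s)) + F5 G i j k k' X Y Z (x true) (a q) (vb x a q) (a' s)
          (vb' x a' s) := by
        rcases h with h | h
        · have : F5 G i j k k' X Y Z (x false) (a q) (vb x a (!q)) (a' s)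
            (vb' x a' (!s)) = 1 := ind_true h
          have := hG0 X Y Z (x true) (a q) (vb x a q) (a' s) (vb' x a' s)
          linarith
        · have : F5 G i j k k' X Y Z (x true) (a q) (vb x a q) (a' s) (vb' x a' s) = 1 :=
            ind_true h
          have := hG0 X Y Z (x false) (a q) (vb x a (!q)) (a' s) (vb' x a' (!s))
          linarith
      refine h1.trans ?_
      refine le_trans ?_ (Finset.single_le_sum (f := fun q => ∑ s : Bool,
        (F5 G i j k k' X Y Z (x false) (a q) (vb x a (!q)) (a' s) (vb' x a' (!s)) +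
          F5 G i j k k' X Y Z (x true) (a q) (vb x a q) (a' s) (vb' x a' s)))
        (fun q _ => Finset.sum_nonneg fun s _ => nn q s) (Finset.mem_univ q))
      exact Finset.single_le_sum (f := fun s =>
        (F5 G i j k k' X Y Z (x false) (a q) (vb x a (!q)) (a' s) (vb' x a' (!s)) +
          F5 G i j k k' X Y Z (x true) (a q) (vb x a q) (a' s) (vb' x a' s)))
        (fun s _ => nn q s) (Finset.mem_univ s)
    · exact Finset.sum_nonneg fun q _ => Finset.sum_nonneg fun s _ => nn q s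
  have hb : bas G ≤ (m : ℝ) ^ 3 / Q := prob_zero
  have h0 : ∀ q s : Bool, (𝔼 X, 𝔼 Y, 𝔼 Z, 𝔼 x : Bool → ZMod Q, 𝔼 a : Bool → ZMod Q,
      𝔼 a' : Bool → ZMod Q, F5 G i j k k' X Y Z (x false) (a q) (vb x a (!q)) (a' s)
        (vb' x a' (!s))) = bas G := fun q s =>
    vertex_null G i j hk false q (!q) s (!s) (Or.inl ⟨rfl, by cases q <;> simp, by
      cases s <;> simp⟩)
  have h1 : ∀ q s : Bool, (𝔼 X, 𝔼 Y, 𝔼 Z, 𝔼 x : Bool → ZMod Q, 𝔼 a : Bool → ZMod Q,
      𝔼 a' : Bool → ZMod Q, F5 G i j k k' X Y Z (x true) (a q) (vb x a q) (a' s)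
        (vb' x a' s)) = bas G := fun q s =>
    vertex_null G i j hk true q q s s (Or.inr ⟨rfl, rfl, rfl⟩)
  calc _ ≤ 𝔼 X, 𝔼 Y, 𝔼 Z, 𝔼 x : Bool → ZMod Q, 𝔼 a : Bool → ZMod Q, 𝔼 a' : Bool → ZMod Q,
      ∑ q : Bool, ∑ s : Bool,
        (F5 G i j k k' X Y Z (x false) (a q) (vb x a (!q)) (a' s) (vb' x a' (!s)) +
          F5 G i j k k' X Y Z (x true) (a q) (vb x a q) (a' s) (vb' x a' s)) :=
        Finset.expect_le_expect fun X _ => Finset.expect_le_expect fun Y _ =>
          Finset.expect_le_expect fun Z _ => Finset.expect_le_expect fun x _ =>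
          Finset.expect_le_expect fun a _ => Finset.expect_le_expect fun a' _ => hle X Y Z x a a'
    _ = ∑ q : Bool, ∑ s : Bool, (bas G + bas G) := by
        simp only [Finset.expect_sum_comm, Finset.expect_add_distrib, h0, h1]
    _ = 8 * bas G := by
        simp only [Fintype.sum_bool]; ring
    _ ≤ 8 * (m : ℝ) ^ 3 / Q := by
        rw [mul_div_assoc]; linarith

end

end Pool.Agent.Helper50.UV
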