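import Pool.Agent.Helper50.UV.TreeCap

/-!
Cauchy-Schwarz for the box: from sensitivity bounds at the three keys of the first triangle to a
bound for the capacity.
-/

set_option autoImplicit false
set_option linter.unusedSectionVars false

open Finset
open scoped BigOperators

namespace Pool.Agent.Helper50.UV

open Pool.Agent.Helper8.VT Pool.Agent.Helper8.UV
open Pool.Agent.Helper8.VS (tri_sq)

theorem exp_cs {α : Type*} [Fintype α] [Nonempty α] (g h : α → ℝ) :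
    (𝔼 x, g x * h x) ≤ √(𝔼 x, g x ^ 2) * √(𝔼 x, h x ^ 2) := by
  have hc : (0 : ℝ) < Fintype.card α := by exact_mod_cast Fintype.card_pos
  simp only [Fintype.expect_eq_sum_div_card]
  have h1 := Real.sum_mul_le_sqrt_mul_sqrt (univ : Finset α) g h
  have h2 : √((∑ x, g x ^ 2) / (Fintype.card α : ℝ)) * √((∑ x, h x ^ 2) / (Fintype.card α : ℝ)) =
      √(∑ x, g x ^ 2) * √(∑ x, h x ^ 2) / Fintype.card α := by
    rw [Real.sqrt_div' _ hc.le, Real.sqrt_div' _ hc.le, div_mul_div_comm, Real.mul_self_sqrt hc.le]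
  rw [h2]
  exact div_le_div_of_nonneg_right h1 hc.le

theorem cube_le {p a b c : ℝ} (hp : 0 ≤ p) (ha : p ≤ a) (hb : p ≤ b) (hc : p ≤ c) :
    p ≤ a ^ (1 / 3 : ℝ) * (b ^ (1 / 3 : ℝ) * c ^ (1 / 3 : ℝ)) := by
  have h1 : p ^ (1 / 3 : ℝ) ≤ a ^ (1 / 3 : ℝ) := Real.rpow_le_rpow hp ha (by norm_num)
  have h2 : p ^ (1 / 3 : ℝ) ≤ b ^ (1 / 3 : ℝ) := Real.rpow_le_rpow hp hb (by norm_num)
  have h3 : p ^ (1 / 3 : ℝ) ≤ c ^ (1 / 3 : ℝ) := Real.rpow_le_rpow hp hc (by norm_num)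
  have h0 : 0 ≤ p ^ (1 / 3 : ℝ) := Real.rpow_nonneg hp _
  have h4 : p = p ^ (1 / 3 : ℝ) * (p ^ (1 / 3 : ℝ) * p ^ (1 / 3 : ℝ)) := by
    have : p ^ (1 / 3 : ℝ) * (p ^ (1 / 3 : ℝ) * p ^ (1 / 3 : ℝ)) = (p ^ (1 / 3 : ℝ)) ^ 3 := by ring
    rw [this, ← Real.rpow_natCast, ← Real.rpow_mul hp]
    norm_num
  calc p = p ^ (1 / 3 : ℝ) * (p ^ (1 / 3 : ℝ) * p ^ (1 / 3 : ℝ)) := h4
    _ ≤ a ^ (1 / 3 : ℝ) * (b ^ (1 / 3 : ℝ) * c ^ (1 / 3 : ℝ)) :=
        mul_le_mul h1 (mul_le_mul h2 h3 h0 (h0.trans h2)) (mul_nonneg h0 h0) (h0.trans h1)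

theorem third_sq {a : ℝ} (ha : 0 ≤ a) : (a ^ (1 / 3 : ℝ)) ^ 2 = a ^ (2 / 3 : ℝ) := by
  rw [← Real.rpow_natCast, ← Real.rpow_mul ha]
  norm_num

section
variable {m Q : ℕ} [NeZero Q]

theorem pair_swap (F : ZMod Q → ZMod Q → ℝ) (c : ZMod Q) :
    (𝔼 a : Bool → ZMod Q, F (c - a true) (c - a false)) = 𝔼 u, 𝔼 v, F u v := by
  have h := fun (f : ZMod Q → ℝ) => expect_neg_sub (-c) f
  simp only [neg_neg] at h
  rw [expBool (fun a0 a1 => F (c - a1) (c - a0))]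
  have h2 : ∀ x0, (𝔼 x1, F (c - x1) (c - x0)) = 𝔼 u, F u (c - x0) := fun x0 =>
    h (fun u => F u (c - x0))
  simp only [h2]
  rw [Finset.expect_comm]
  exact Finset.expect_congr rfl fun u _ => h (fun v => F u v)

open Classical in
/-- Cauchy-Schwarz for the box. -/
theorem box_cs (G : Cfg m Q → Cfg m Q → Cfg m Q → ℝ)
    (A : Fin 3 → Fin m × Fin m → ZMod Q → ZMod Q → ℝ) (hA : ∀ c e u v, 0 ≤ A c e u v)
    (hx : ∀ i j k k', k ≠ k' → ∀ x a a' : Bool → ZMod Q, (𝔼 X, 𝔼 Y, 𝔼 Z,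
      if ev G i j k k' X Y Z x a a' then (1 : ℝ) else 0) ≤ A 0 (i, j) (x false) (x true))
    (ha : ∀ i j k k', k ≠ k' → ∀ x a a' : Bool → ZMod Q, (𝔼 X, 𝔼 Y, 𝔼 Z,
      if ev G i j k k' X Y Z x a a' then (1 : ℝ) else 0) ≤ A 1 (j, k) (a false) (a true))
    (hb : ∀ i j k k', k ≠ k' → ∀ x a a' : Bool → ZMod Q, (𝔼 X, 𝔼 Y, 𝔼 Z,
      if ev G i j k k' X Y Z x a a' then (1 : ℝ) else 0) ≤
        A 2 (k, i) (vb x a false) (vb x a true)) :
    cap G ≤ m * (∑ c, ∑ e, 𝔼 u, 𝔼 v, A c e u v ^ (2 / 3 : ℝ)) ^ (3 / 2 : ℝ) := by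
  set S : Fin 3 → Fin m × Fin m → ℝ := fun c e => 𝔼 u, 𝔼 v, A c e u v ^ (2 / 3 : ℝ) with hS
  have hS0 : ∀ c e, 0 ≤ S c e := fun c e => Finset.expect_nonneg fun u _ =>
    Finset.expect_nonneg fun v _ => Real.rpow_nonneg (hA c e u v) _
  have hSb : ∀ c e, (𝔼 x : Bool → ZMod Q, (A c e (x false) (x true) ^ (1 / 3 : ℝ)) ^ 2) =
      S c e := by
    intro c e
    simp only [third_sq (hA _ _ _ _)]
    exact expBool (fun u v => A c e u v ^ (2 / 3 : ℝ))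
  -- one pair of triangles
  have one : ∀ i j k k', k ≠ k' → (𝔼 X, 𝔼 Y, 𝔼 Z, 𝔼 x : Bool → ZMod Q, 𝔼 a : Bool → ZMod Q,
      𝔼 a' : Bool → ZMod Q, if ev G i j k k' X Y Z x a a' then (1 : ℝ) else 0) ≤
      √(S 0 (i, j)) * √(S 1 (j, k)) * √(S 2 (k, i)) := by
    intro i j k k' hk
    have sw : ∀ {T : Type} [Fintype T] (f : Cfg m Q → Cfg m Q → Cfg m Q → T → ℝ),
        (𝔼 X, 𝔼 Y, 𝔼 Z, 𝔼 t, f X Y Z t) = 𝔼 t, 𝔼 X, 𝔼 Y, 𝔼 Z, f X Y Z t := by
      intro T _ f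
      have e1 : ∀ X Y, (𝔼 Z, 𝔼 t, f X Y Z t) = 𝔼 t, 𝔼 Z, f X Y Z t := fun X Y =>
        Finset.expect_comm _ _ _
      simp only [e1]
      have e2 : ∀ X, (𝔼 Y, 𝔼 t, 𝔼 Z, f X Y Z t) = 𝔼 t, 𝔼 Y, 𝔼 Z, f X Y Z t := fun X =>
        Finset.expect_comm _ _ _
      simp only [e2]
      exact Finset.expect_comm _ _ _
    rw [sw]
    simp only [sw]
    have h1 : ∀ x a a' : Bool → ZMod Q, (𝔼 X, 𝔼 Y, 𝔼 Z,
        if ev G i j k k' X Y Z x a a' then (1 : ℝ) else 0) ≤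
        A 0 (i, j) (x false) (x true) ^ (1 / 3 : ℝ) *
          (A 1 (j, k) (a false) (a true) ^ (1 / 3 : ℝ) *
            A 2 (k, i) (vb x a false) (vb x a true) ^ (1 / 3 : ℝ)) := by
      intro x a a'
      refine cube_le ?_ (hx i j k k' hk x a a') (ha i j k k' hk x a a') (hb i j k k' hk x a a')
      refine Finset.expect_nonneg fun X _ => Finset.expect_nonneg fun Y _ =>
        Finset.expect_nonneg fun Z _ => ?_
      split_ifs <;> norm_num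
    have h2 : ∀ x : Bool → ZMod Q, (𝔼 a : Bool → ZMod Q,
        A 1 (j, k) (a false) (a true) ^ (1 / 3 : ℝ) *
          A 2 (k, i) (vb x a false) (vb x a true) ^ (1 / 3 : ℝ)) ≤
        √(S 1 (j, k)) * √(S 2 (k, i)) := by
      intro x
      have h3 := exp_cs (fun a : Bool → ZMod Q => A 1 (j, k) (a false) (a true) ^ (1 / 3 : ℝ))
        (fun a => A 2 (k, i) (vb x a false) (vb x a true) ^ (1 / 3 : ℝ))
      rw [hSb 1 (j, k)] at h3
      have h4 : (𝔼 a : Bool → ZMod Q,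
          (A 2 (k, i) (vb x a false) (vb x a true) ^ (1 / 3 : ℝ)) ^ 2) = S 2 (k, i) := by
        simp only [third_sq (hA _ _ _ _)]
        exact pair_swap (fun u v => A 2 (k, i) u v ^ (2 / 3 : ℝ)) (-x true)
      rw [h4] at h3
      exact h3
    have h5 : (𝔼 x : Bool → ZMod Q, A 0 (i, j) (x false) (x true) ^ (1 / 3 : ℝ)) ≤
        √(S 0 (i, j)) := by
      have h6 := exp_cs (fun x : Bool → ZMod Q => A 0 (i, j) (x false) (x true) ^ (1 / 3 : ℝ))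
        (fun _ => 1)
      rw [hSb 0 (i, j)] at h6
      simp only [mul_one, one_pow, cst, Real.sqrt_one] at h6
      exact h6
    calc _ ≤ 𝔼 x : Bool → ZMod Q, 𝔼 a : Bool → ZMod Q, 𝔼 _a' : Bool → ZMod Q,
          A 0 (i, j) (x false) (x true) ^ (1 / 3 : ℝ) *
          (A 1 (j, k) (a false) (a true) ^ (1 / 3 : ℝ) *
            A 2 (k, i) (vb x a false) (vb x a true) ^ (1 / 3 : ℝ)) :=
          Finset.expect_le_expect fun x _ => Finset.expect_le_expect fun a _ =>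
            Finset.expect_le_expect fun a' _ => h1 x a a'
      _ = 𝔼 x : Bool → ZMod Q, A 0 (i, j) (x false) (x true) ^ (1 / 3 : ℝ) *
          𝔼 a : Bool → ZMod Q, (A 1 (j, k) (a false) (a true) ^ (1 / 3 : ℝ) *
            A 2 (k, i) (vb x a false) (vb x a true) ^ (1 / 3 : ℝ)) := by
          simp only [cst, Finset.mul_expect]
      _ ≤ 𝔼 x : Bool → ZMod Q, A 0 (i, j) (x false) (x true) ^ (1 / 3 : ℝ) *
          (√(S 1 (j, k)) * √(S 2 (k, i))) :=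
          Finset.expect_le_expect fun x _ => mul_le_mul_of_nonneg_left (h2 x)
            (Real.rpow_nonneg (hA _ _ _ _) _)
      _ = (𝔼 x : Bool → ZMod Q, A 0 (i, j) (x false) (x true) ^ (1 / 3 : ℝ)) *
          (√(S 1 (j, k)) * √(S 2 (k, i))) := by
          rw [Finset.expect_mul]
      _ ≤ √(S 0 (i, j)) * (√(S 1 (j, k)) * √(S 2 (k, i))) :=
          mul_le_mul_of_nonneg_right h5 (by positivity)
      _ = _ := by ring
  -- the sum
  set Γ : ℝ := ∑ c, ∑ e, S c e with hΓ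
  have hg : ∀ c, ∑ e, S c e ≤ Γ := fun c =>
    Finset.single_le_sum (f := fun c => ∑ e, S c e)
      (fun c _ => Finset.sum_nonneg fun e _ => hS0 c e) (Finset.mem_univ c)
  have hg0 : ∀ c, 0 ≤ ∑ e, S c e := fun c => Finset.sum_nonneg fun e _ => hS0 c e
  have hΓ0 : 0 ≤ Γ := (hg0 0).trans (hg 0)
  have htri := tri_sq (fun i j : Fin m => √(S 0 (i, j))) (fun j k : Fin m => √(S 1 (j, k)))
    (fun k i : Fin m => √(S 2 (k, i)))
  simp only [Real.sq_sqrt (hS0 _ _)] at htri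
  have hsum : ∀ c : Fin 3, ∑ i : Fin m, ∑ j : Fin m, S c (i, j) = ∑ e, S c e := fun c => by
    rw [Fintype.sum_prod_type]
  rw [hsum, hsum, hsum] at htri
  have h3 : ∑ i : Fin m, ∑ j : Fin m, ∑ k : Fin m, √(S 0 (i, j)) * √(S 1 (j, k)) * √(S 2 (k, i)) ≤
      Γ ^ (3 / 2 : ℝ) := by
    have e : Γ ^ (3 / 2 : ℝ) = √(Γ ^ 3) := by
      rw [Real.sqrt_eq_rpow, ← Real.rpow_natCast, ← Real.rpow_mul hΓ0]
      norm_num
    rw [e]
    refine Real.le_sqrt_of_sq_le (htri.trans ?_)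
    calc (∑ e, S 0 e) * (∑ e, S 1 e) * ∑ e, S 2 e ≤ Γ * Γ * Γ :=
          mul_le_mul (mul_le_mul (hg 0) (hg 1) (hg0 1) hΓ0) (hg 2) (hg0 2)
            (mul_nonneg hΓ0 hΓ0)
      _ = Γ ^ 3 := by ring
  have hnn : ∀ i j k : Fin m, 0 ≤ √(S 0 (i, j)) * √(S 1 (j, k)) * √(S 2 (k, i)) :=
    fun i j k => by positivity
  calc cap G ≤ ∑ i : Fin m, ∑ j : Fin m, ∑ k : Fin m, ∑ _k' : Fin m,
        √(S 0 (i, j)) * √(S 1 (j, k)) * √(S 2 (k, i)) := by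
        unfold cap
        refine Finset.sum_le_sum fun i _ => Finset.sum_le_sum fun j _ =>
          Finset.sum_le_sum fun k _ => ?_
        refine le_trans (Finset.sum_le_sum fun k' hk' =>
          one i j k k' (Finset.ne_of_mem_erase hk').symm) ?_
        exact Finset.sum_le_sum_of_subset_of_nonneg (Finset.subset_univ _) fun k' _ _ => hnn i j k
    _ = m * ∑ i : Fin m, ∑ j : Fin m, ∑ k : Fin m,
        √(S 0 (i, j)) * √(S 1 (j, k)) * √(S 2 (k, i)) := by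
        simp only [Finset.sum_const, Finset.card_univ, Fintype.card_fin, nsmul_eq_mul,
          ← Finset.mul_sum]
    _ ≤ m * Γ ^ (3 / 2 : ℝ) := mul_le_mul_of_nonneg_left h3 (Nat.cast_nonneg _)

end

end Pool.Agent.Helper50.UV
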