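import Mathlib
import Pool.Agent.Helper5.UV.KR

/-!
The rank sum and the bound for one gate.
-/

set_option autoImplicit false
set_option linter.unusedSectionVars false

open Finset
open scoped BigOperators

namespace Pool.Agent.Helper50.UV

open Pool.Agent.Helper5.UV (qd qd_nonneg qd_le_one qd_anti)

/-- One step of the rank sum. -/
theorem rank_step (N : ℕ) :
    ((N + 1 : ℕ) : ℝ) ^ (-(1 / 3) : ℝ) + 3 / 2 * (N : ℝ) ^ (2 / 3 : ℝ) ≤
      3 / 2 * ((N + 1 : ℕ) : ℝ) ^ (2 / 3 : ℝ) := by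
  have hpos : (0 : ℝ) < ((N + 1 : ℕ) : ℝ) := by positivity
  set M : ℝ := ((N + 1 : ℕ) : ℝ) with hM
  have hN : (N : ℝ) = M * (1 + (-(1 / M))) := by
    rw [hM]; push_cast; field_simp; ring
  have hs : -1 ≤ -(1 / M) := by
    have : 1 / M ≤ 1 := by
      rw [div_le_one hpos, hM]
      push_cast
      linarith [Nat.cast_nonneg (α := ℝ) N]
    linarith
  have hb := rpow_one_add_le_one_add_mul_self (s := -(1 / M)) hs (p := 2 / 3) (by norm_num)
    (by norm_num)
  have h0 : 0 ≤ 1 + -(1 / M) := by linarith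
  rw [hN, Real.mul_rpow hpos.le h0]
  have hMp : 0 < M ^ (2 / 3 : ℝ) := Real.rpow_pos_of_pos hpos _
  have h1 : M ^ (2 / 3 : ℝ) * (1 + -(1 / M)) ^ (2 / 3 : ℝ) ≤
      M ^ (2 / 3 : ℝ) * (1 + 2 / 3 * -(1 / M)) := mul_le_mul_of_nonneg_left hb hMp.le
  have h2 : M ^ (2 / 3 : ℝ) * (1 / M) = M ^ (-(1 / 3) : ℝ) := by
    rw [one_div, ← Real.rpow_neg_one M, ← Real.rpow_add hpos]
    norm_num
  nlinarith

/-- The rank sum. -/
theorem rank_sum {α : Type*} [DecidableEq α] (δ : α → ℝ) : ∀ (n : ℕ) (S : Finset α), S.card = n →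
    ∑ s ∈ S, (((S.filter fun s' => δ s ≤ δ s').card : ℕ) : ℝ) ^ (-(1 / 3) : ℝ) ≤
      3 / 2 * (n : ℝ) ^ (2 / 3 : ℝ) := by
  intro n
  induction n with
  | zero =>
    intro S hS
    rw [Finset.card_eq_zero.1 hS]
    simp
  | succ N ih =>
    intro S hS
    have hne : S.Nonempty := by
      rw [← Finset.card_pos, hS]; omega
    obtain ⟨s0, hs0, hmin⟩ := Finset.exists_min_image S δ hne
    have hc : (S.erase s0).card = N := by
      rw [Finset.card_erase_of_mem hs0, hS]; rfl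
    have hall : (S.filter fun s' => δ s0 ≤ δ s') = S := Finset.filter_true_of_mem hmin
    rw [← Finset.add_sum_erase S _ hs0, hall, hS]
    refine le_trans (add_le_add le_rfl ?_) (rank_step N)
    refine le_trans (Finset.sum_le_sum fun s hs => ?_) (ih (S.erase s0) hc)
    have hsS := Finset.mem_of_mem_erase hs
    have hle : ((S.erase s0).filter fun s' => δ s ≤ δ s').card ≤
        (S.filter fun s' => δ s ≤ δ s').card :=
      Finset.card_le_card (Finset.filter_subset_filter _ (Finset.erase_subset _ _))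
    have hpos : 0 < ((S.erase s0).filter fun s' => δ s ≤ δ s').card := by
      rw [Finset.card_pos]
      exact ⟨s, Finset.mem_filter.2 ⟨hs, le_rfl⟩⟩
    exact Real.rpow_le_rpow_of_nonpos (by exact_mod_cast hpos) (by exact_mod_cast hle)
      (by norm_num)

theorem rpow_add_le {a b p : ℝ} (ha : 0 ≤ a) (hb : 0 ≤ b) (hp : 0 ≤ p) (hp1 : p ≤ 1) :
    (a + b) ^ p ≤ a ^ p + b ^ p := by
  have h := NNReal.rpow_add_le_add_rpow ⟨a, ha⟩ ⟨b, hb⟩ hp hp1
  exact_mod_cast h

theorem rpow_sum_le {ι : Type*} (s : Finset ι) (f : ι → ℝ) (hf : ∀ i ∈ s, 0 ≤ f i) {p : ℝ}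
    (hp : 0 < p) (hp1 : p ≤ 1) : (∑ i ∈ s, f i) ^ p ≤ ∑ i ∈ s, f i ^ p := by
  classical
  induction s using Finset.induction_on with
  | empty => simp [Real.zero_rpow hp.ne']
  | insert a s ha ih =>
    rw [Finset.sum_insert ha, Finset.sum_insert ha]
    refine (rpow_add_le (hf a (Finset.mem_insert_self _ _)) (Finset.sum_nonneg fun i hi =>
      hf i (Finset.mem_insert_of_mem hi)) hp.le hp1).trans ?_
    exact add_le_add le_rfl (ih fun i hi => hf i (Finset.mem_insert_of_mem hi))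

section
variable {κ V : Type} [Fintype κ] [Fintype V] [Nonempty V]

open Classical in
/-- The bound for one gate: `g` has at most `k` places where it is not constant. -/
theorem gate_gamma (g : κ → V → ℝ) (K : Finset κ) (hK : ∀ e, e ∉ K → ∀ u v, g e u = g e v) :
    ∑ e, (𝔼 u : V, 𝔼 v : V, if g e u = g e v then (0 : ℝ) else
      (∑ f, qd (g f) |g e u - g e v|) ^ (-(1 / 3) : ℝ)) ≤ 3 / 2 * (K.card : ℝ) ^ (2 / 3 : ℝ) := by
  set S : Finset (κ × V × V) := univ.filter fun p => g p.1 p.2.1 ≠ g p.1 p.2.2 with hS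
  set δ : κ × V × V → ℝ := fun p => |g p.1 p.2.1 - g p.1 p.2.2| with hδ
  set c : ℝ := (Fintype.card V : ℝ) with hc
  have hc0 : 0 < c := by
    rw [hc]; exact_mod_cast Fintype.card_pos
  -- the size of `S`
  have hcard : (S.card : ℝ) ≤ K.card * c ^ 2 := by
    have h1 : S ⊆ K ×ˢ (univ : Finset (V × V)) := by
      intro p hp
      rw [hS, Finset.mem_filter] at hp
      rw [Finset.mem_product]
      refine ⟨?_, Finset.mem_univ _⟩
      by_contra h
      exact hp.2 (hK p.1 h _ _)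
    have h2 := Finset.card_le_card h1
    rw [Finset.card_product, Finset.card_univ, Fintype.card_prod] at h2
    calc (S.card : ℝ) ≤ ((K.card * (Fintype.card V * Fintype.card V) : ℕ) : ℝ) := by
          exact_mod_cast h2
      _ = K.card * c ^ 2 := by push_cast; rw [hc]; ring
  -- `J` in terms of `S`
  have hJ : ∀ s ∈ S, ∑ f, qd (g f) (δ s) =
      ((S.filter fun s' => δ s ≤ δ s').card : ℝ) / c ^ 2 := by
    intro s hs
    rw [hS, Finset.mem_filter] at hs
    have hpos : 0 < δ s := abs_pos.2 (sub_ne_zero.2 hs.2)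
    unfold qd
    rw [← Finset.sum_div]
    congr 1
    have h1 : (S.filter fun s' => δ s ≤ δ s') = (univ : Finset (κ × V × V)).filter
        fun s' => δ s ≤ δ s' := by
      ext s'
      simp only [hS, Finset.mem_filter, Finset.mem_univ, true_and, and_iff_right_iff_imp]
      intro h2 h3
      have : δ s' = 0 := by simp only [hδ, h3, sub_self, abs_zero]
      linarith
    rw [h1, Finset.card_filter]
    push_cast
    rw [Fintype.sum_prod_type]
    refine Finset.sum_congr rfl fun f _ => ?_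
    rw [Finset.card_filter]
    push_cast
    rfl
  -- the left-hand side
  have hL : ∑ e, (𝔼 u : V, 𝔼 v : V, if g e u = g e v then (0 : ℝ) else
      (∑ f, qd (g f) |g e u - g e v|) ^ (-(1 / 3) : ℝ)) =
      (∑ s ∈ S, (((S.filter fun s' => δ s ≤ δ s').card : ℝ) / c ^ 2) ^ (-(1 / 3) : ℝ)) / c ^ 2 := by
    have h1 : ∀ e, (𝔼 u : V, 𝔼 v : V, if g e u = g e v then (0 : ℝ) else
      (∑ f, qd (g f) |g e u - g e v|) ^ (-(1 / 3) : ℝ)) =
      (∑ u : V, ∑ v : V, if g e u = g e v then (0 : ℝ) else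
      (∑ f, qd (g f) |g e u - g e v|) ^ (-(1 / 3) : ℝ)) / c ^ 2 := by
      intro e
      simp only [Fintype.expect_eq_sum_div_card]
      rw [← Finset.sum_div, div_div, ← sq, hc]
    simp only [h1]
    rw [← Finset.sum_div]
    congr 1
    rw [hS, Finset.sum_filter, Fintype.sum_prod_type]
    refine Finset.sum_congr rfl fun e _ => ?_
    rw [Fintype.sum_prod_type]
    refine Finset.sum_congr rfl fun u _ => Finset.sum_congr rfl fun v _ => ?_
    by_cases h : g e u = g e v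
    · rw [if_pos h, if_neg (not_not.2 h)]
    · rw [if_neg h, if_pos h]
      have hs : (e, u, v) ∈ S := by
        rw [hS, Finset.mem_filter]; exact ⟨Finset.mem_univ _, h⟩
      have := hJ _ hs
      simp only [hδ] at this ⊢
      rw [this]
  rw [hL]
  have h3 : ∀ s ∈ S, (((S.filter fun s' => δ s ≤ δ s').card : ℝ) / c ^ 2) ^ (-(1 / 3) : ℝ) =
      ((S.filter fun s' => δ s ≤ δ s').card : ℝ) ^ (-(1 / 3) : ℝ) * c ^ (2 / 3 : ℝ) := by
    intro s hs
    rw [Real.div_rpow (Nat.cast_nonneg _) (by positivity), div_eq_mul_inv, ← Real.rpow_neg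
      (by positivity), neg_neg, ← Real.rpow_natCast, ← Real.rpow_mul hc0.le]
    norm_num
  rw [Finset.sum_congr rfl h3, ← Finset.sum_mul]
  have h4 := rank_sum δ S.card S rfl
  have h5 : (S.card : ℝ) ^ (2 / 3 : ℝ) ≤ (K.card : ℝ) ^ (2 / 3 : ℝ) * c ^ (4 / 3 : ℝ) := by
    refine (Real.rpow_le_rpow (Nat.cast_nonneg _) hcard (by norm_num)).trans (le_of_eq ?_)
    rw [Real.mul_rpow (Nat.cast_nonneg _) (by positivity), ← Real.rpow_natCast c 2,
      ← Real.rpow_mul hc0.le]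
    norm_num
  have h6 : c ^ (4 / 3 : ℝ) * c ^ (2 / 3 : ℝ) = c ^ 2 := by
    rw [← Real.rpow_add hc0, ← Real.rpow_natCast]
    norm_num
  have h7 : 0 < c ^ (2 / 3 : ℝ) := Real.rpow_pos_of_pos hc0 _
  rw [div_le_iff₀ (by positivity)]
  calc _ ≤ 3 / 2 * (S.card : ℝ) ^ (2 / 3 : ℝ) * c ^ (2 / 3 : ℝ) :=
        mul_le_mul_of_nonneg_right h4 h7.le
    _ ≤ 3 / 2 * ((K.card : ℝ) ^ (2 / 3 : ℝ) * c ^ (4 / 3 : ℝ)) * c ^ (2 / 3 : ℝ) :=
        mul_le_mul_of_nonneg_right (mul_le_mul_of_nonneg_left h5 (by norm_num)) h7.le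
    _ = 3 / 2 * (K.card : ℝ) ^ (2 / 3 : ℝ) * (c ^ (4 / 3 : ℝ) * c ^ (2 / 3 : ℝ)) := by ring
    _ = 3 / 2 * (K.card : ℝ) ^ (2 / 3 : ℝ) * c ^ 2 := by rw [h6]

end

end Pool.Agent.Helper50.UV
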