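import Pool.Agent.Helper50.UV.BoxCS
import Pool.Agent.Helper50.UV.Gamma
import Pool.Agent.Helper5.UV.Rank

/-!
The capacity of an arbitrary function of `d` additive threshold gates, from the sensitivity bounds.
-/

set_option autoImplicit false
set_option linter.unusedSectionVars false

open Finset
open scoped BigOperators

namespace Pool.Agent.Helper50.UV

open Pool.Agent.Helper8.VT Pool.Agent.Helper8.UV
open Pool.Agent.Helper5.UV (infl infl_nonneg sum_infl)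

theorem holder_nat (d : ℕ) (k : Fin d → ℕ) :
    (∑ s, (k s : ℝ) ^ (2 / 3 : ℝ)) ^ (3 / 2 : ℝ) ≤ √d * ∑ s, (k s : ℝ) := by
  have h := Real.rpow_sum_le_const_mul_sum_rpow (univ : Finset (Fin d))
    (fun s => (k s : ℝ) ^ (2 / 3 : ℝ)) (p := 3 / 2) (by norm_num)
  have e1 : ∀ s, |(k s : ℝ) ^ (2 / 3 : ℝ)| = (k s : ℝ) ^ (2 / 3 : ℝ) := fun s =>
    abs_of_nonneg (Real.rpow_nonneg (Nat.cast_nonneg _) _)
  have e2 : ∀ s, ((k s : ℝ) ^ (2 / 3 : ℝ)) ^ (3 / 2 : ℝ) = k s := fun s => by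
    rw [← Real.rpow_mul (Nat.cast_nonneg _)]
    norm_num
  simp only [e1, e2] at h
  have e3 : ((univ : Finset (Fin d)).card : ℝ) ^ ((3 / 2 : ℝ) - 1) = √d := by
    rw [Real.sqrt_eq_rpow, Finset.card_univ, Fintype.card_fin]
    norm_num
  rw [e3] at h
  exact h

section
variable {m Q : ℕ} [NeZero Q]

open Classical in
theorem junta_cap (G : Cfg m Q → Cfg m Q → Cfg m Q → ℝ) (d : ℕ)
    (g : Fin d → Key m → ZMod Q → ℝ) (k : Fin d → ℕ)
    (hk : ∀ s, (univ.filter fun e => ∃ v v', g s e v ≠ g s e v').card ≤ k s) (C : ℝ) (hC : 0 ≤ C)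
    (hx : ∀ i j k k', k ≠ k' → ∀ x a a' : Bool → ZMod Q, (𝔼 X, 𝔼 Y, 𝔼 Z,
      if ev G i j k k' X Y Z x a a' then (1 : ℝ) else 0) ≤
        C * ∑ s, infl (g s) (0, (i, j)) (x false) (x true))
    (ha : ∀ i j k k', k ≠ k' → ∀ x a a' : Bool → ZMod Q, (𝔼 X, 𝔼 Y, 𝔼 Z,
      if ev G i j k k' X Y Z x a a' then (1 : ℝ) else 0) ≤
        C * ∑ s, infl (g s) (1, (j, k)) (a false) (a true))
    (hb : ∀ i j k k', k ≠ k' → ∀ x a a' : Bool → ZMod Q, (𝔼 X, 𝔼 Y, 𝔼 Z,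
      if ev G i j k k' X Y Z x a a' then (1 : ℝ) else 0) ≤
        C * ∑ s, infl (g s) (2, (k, i)) (vb x a false) (vb x a true)) :
    cap G ≤ 2 * C * m * (√d * ∑ s, (k s : ℝ)) := by
  set A : Fin 3 → Fin m × Fin m → ZMod Q → ZMod Q → ℝ := fun c e u v =>
    C * ∑ s, infl (g s) (c, e) u v with hA
  have hI : ∀ s c e u v, 0 ≤ infl (g s) (c, e) u v := fun s c e u v => infl_nonneg _ _ _ _
  have hA0 : ∀ c e u v, 0 ≤ A c e u v := fun c e u v =>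
    mul_nonneg hC (Finset.sum_nonneg fun s _ => hI s c e u v)
  have h1 := box_cs G A hA0 hx ha hb
  set c0 : ℝ := (Fintype.card (ZMod Q) : ℝ) with hc0
  have hcpos : 0 < c0 := by
    rw [hc0]; exact_mod_cast Fintype.card_pos
  -- the total
  have h2 : ∑ c, ∑ e, (𝔼 u, 𝔼 v, A c e u v ^ (2 / 3 : ℝ)) ≤
      C ^ (2 / 3 : ℝ) * (3 / 2 * ∑ s, (k s : ℝ) ^ (2 / 3 : ℝ)) := by
    have h3 : ∀ c e u v, A c e u v ^ (2 / 3 : ℝ) ≤
        C ^ (2 / 3 : ℝ) * ∑ s, infl (g s) (c, e) u v ^ (2 / 3 : ℝ) := by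
      intro c e u v
      rw [hA, Real.mul_rpow hC (Finset.sum_nonneg fun s _ => hI s c e u v)]
      refine mul_le_mul_of_nonneg_left ?_ (Real.rpow_nonneg hC _)
      exact rpow_sum_le _ _ (fun s _ => hI s c e u v) (by norm_num) (by norm_num)
    have h4 : ∀ c e, (𝔼 u, 𝔼 v, A c e u v ^ (2 / 3 : ℝ)) ≤
        C ^ (2 / 3 : ℝ) * ∑ s, (∑ u, ∑ v, infl (g s) (c, e) u v ^ (2 / 3 : ℝ)) / c0 ^ 2 := by
      intro c e
      refine (Finset.expect_le_expect fun u _ => Finset.expect_le_expect fun v _ =>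
        h3 c e u v).trans (le_of_eq ?_)
      simp only [Fintype.expect_eq_sum_div_card, ← hc0, ← Finset.mul_sum, ← Finset.sum_div,
        mul_div_assoc]
      congr 1
      rw [div_div, ← sq]
      congr 1
      have e1 : ∀ u, ∑ v, ∑ s, infl (g s) (c, e) u v ^ (2 / 3 : ℝ) =
          ∑ s, ∑ v, infl (g s) (c, e) u v ^ (2 / 3 : ℝ) := fun u => Finset.sum_comm
      simp only [e1]
      exact Finset.sum_comm
    have h5 : ∀ s, ∑ c : Fin 3, ∑ e : Fin m × Fin m,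
        (∑ u, ∑ v, infl (g s) (c, e) u v ^ (2 / 3 : ℝ)) / c0 ^ 2 ≤
        3 / 2 * (k s : ℝ) ^ (2 / 3 : ℝ) := by
      intro s
      have h6 := sum_infl (g s) (k s) (hk s)
      rw [Fintype.sum_prod_type] at h6
      simp only [← Finset.sum_div]
      rw [div_le_iff₀ (by positivity)]
      refine h6.trans (le_of_eq ?_)
      rw [hc0]; ring
    calc ∑ c, ∑ e, (𝔼 u, 𝔼 v, A c e u v ^ (2 / 3 : ℝ))
        ≤ ∑ c : Fin 3, ∑ e : Fin m × Fin m, C ^ (2 / 3 : ℝ) *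
          ∑ s, (∑ u, ∑ v, infl (g s) (c, e) u v ^ (2 / 3 : ℝ)) / c0 ^ 2 :=
          Finset.sum_le_sum fun c _ => Finset.sum_le_sum fun e _ => h4 c e
      _ = C ^ (2 / 3 : ℝ) * ∑ s, ∑ c : Fin 3, ∑ e : Fin m × Fin m,
          (∑ u, ∑ v, infl (g s) (c, e) u v ^ (2 / 3 : ℝ)) / c0 ^ 2 := by
          simp only [← Finset.mul_sum]
          congr 1
          have e1 : ∀ c : Fin 3, ∑ e : Fin m × Fin m, ∑ s,
              (∑ u, ∑ v, infl (g s) (c, e) u v ^ (2 / 3 : ℝ)) / c0 ^ 2 =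
              ∑ s, ∑ e : Fin m × Fin m,
              (∑ u, ∑ v, infl (g s) (c, e) u v ^ (2 / 3 : ℝ)) / c0 ^ 2 := fun c =>
            Finset.sum_comm
          simp only [e1]
          exact Finset.sum_comm
      _ ≤ C ^ (2 / 3 : ℝ) * ∑ s, 3 / 2 * (k s : ℝ) ^ (2 / 3 : ℝ) :=
          mul_le_mul_of_nonneg_left (Finset.sum_le_sum fun s _ => h5 s) (Real.rpow_nonneg hC _)
      _ = _ := by rw [← Finset.mul_sum]
  have hk0 : 0 ≤ ∑ s, (k s : ℝ) ^ (2 / 3 : ℝ) :=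
    Finset.sum_nonneg fun s _ => Real.rpow_nonneg (Nat.cast_nonneg _) _
  have h7 : (∑ c, ∑ e, (𝔼 u, 𝔼 v, A c e u v ^ (2 / 3 : ℝ))) ^ (3 / 2 : ℝ) ≤
      2 * C * (√d * ∑ s, (k s : ℝ)) := by
    have hnn : 0 ≤ ∑ c, ∑ e, (𝔼 u, 𝔼 v, A c e u v ^ (2 / 3 : ℝ)) :=
      Finset.sum_nonneg fun c _ => Finset.sum_nonneg fun e _ => Finset.expect_nonneg fun u _ =>
        Finset.expect_nonneg fun v _ => Real.rpow_nonneg (hA0 c e u v) _
    refine (Real.rpow_le_rpow hnn h2 (by norm_num)).trans ?_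
    rw [Real.mul_rpow (Real.rpow_nonneg hC _) (by positivity), Real.mul_rpow (by norm_num) hk0,
      ← Real.rpow_mul hC]
    have e1 : C ^ ((2 / 3 : ℝ) * (3 / 2)) = C := by norm_num
    have e2 : (3 / 2 : ℝ) ^ (3 / 2 : ℝ) ≤ 2 := by
      have : (3 / 2 : ℝ) ^ (3 / 2 : ℝ) = √((3 / 2) ^ 3) := by
        rw [Real.sqrt_eq_rpow, ← Real.rpow_natCast, ← Real.rpow_mul (by norm_num)]
        norm_num
      rw [this]
      refine Real.sqrt_le_iff.2 ⟨by norm_num, by norm_num⟩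
    rw [e1]
    have h8 := holder_nat d k
    have h9 : 0 ≤ (∑ s, (k s : ℝ) ^ (2 / 3 : ℝ)) ^ (3 / 2 : ℝ) := Real.rpow_nonneg hk0 _
    calc C * ((3 / 2 : ℝ) ^ (3 / 2 : ℝ) * (∑ s, (k s : ℝ) ^ (2 / 3 : ℝ)) ^ (3 / 2 : ℝ))
        ≤ C * (2 * (√d * ∑ s, (k s : ℝ))) :=
          mul_le_mul_of_nonneg_left (mul_le_mul e2 h8 h9 (by norm_num)) hC
      _ = _ := by ring
  refine h1.trans ((mul_le_mul_of_nonneg_left h7 (Nat.cast_nonneg _)).trans (le_of_eq ?_))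
  ring

end

end Pool.Agent.Helper50.UV
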